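import Mathlib

/-! The sign of the local degree is invariant under proper homotopies. -/

noncomputable section

namespace Pool.Agent.Lib.MP_2add11_gt.D5

open Set Metric Matrix Filter Topology MeasureTheory Module
open scoped ContDiff

theorem dg_cut : ∃ h : ℝ → ℝ, ContDiff ℝ ∞ h ∧ (∀ t, h t ≠ 0 → t ∈ Icc (-1 : ℝ) 2) ∧
    (∀ t < 1, 0 ≤ deriv h t) ∧ (∀ t, 0 < t → deriv h t ≤ 0) ∧ ∃ t ≤ 0, 0 < deriv h t := by
  let s := Real.smoothTransition
  have c : ContDiff ℝ ∞ s := Real.smoothTransition.contDiff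
  have d : Differentiable ℝ s := c.differentiable (by simp)
  have p : ∀ t, 0 ≤ deriv s t := fun t => Real.smoothTransition.monotone.deriv_nonneg
  have z0 : ∀ t < 0, deriv s t = 0 := fun t ht => by
    have : s =ᶠ[𝓝 t] fun _ => 0 := (eventually_lt_nhds ht).mono fun x hx =>
      Real.smoothTransition.zero_of_nonpos hx.le
    rw [this.deriv_eq, deriv_const]
  have z1 : ∀ t, 1 < t → deriv s t = 0 := fun t ht => by
    have : s =ᶠ[𝓝 t] fun _ => 1 := (eventually_gt_nhds ht).mono fun x hx =>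
      Real.smoothTransition.one_of_one_le hx.le
    rw [this.deriv_eq, deriv_const]
  have e : ∀ t, deriv (fun t => s (t + 1) - s (t - 1)) t = deriv s (t + 1) - deriv s (t - 1) :=
    fun t => (((d (t + 1)).hasDerivAt.comp_add_const t 1).sub
      ((d (t - 1)).hasDerivAt.comp_sub_const t 1)).deriv
  refine ⟨fun t => s (t + 1) - s (t - 1), (c.comp (contDiff_id.add contDiff_const)).sub
    (c.comp (contDiff_id.sub contDiff_const)), fun t ht => ?_, fun t ht => ?_, fun t ht => ?_, ?_⟩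
  · by_contra k
    rw [mem_Icc, not_and_or, not_le, not_le] at k
    refine ht ?_
    rcases k with k | k
    · simp only [s]
      rw [Real.smoothTransition.zero_of_nonpos (by linarith),
        Real.smoothTransition.zero_of_nonpos (by linarith), sub_self]
    · simp only [s]
      rw [Real.smoothTransition.one_of_one_le (by linarith),
        Real.smoothTransition.one_of_one_le (by linarith), sub_self]
  · rw [e, z0 (t - 1) (by linarith), sub_zero]
    exact p _
  · rw [e, z1 (t + 1) (by linarith), zero_sub, neg_nonpos]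
    exact p _
  · obtain ⟨x, hx, k⟩ := exists_deriv_eq_slope s zero_lt_one d.continuous.continuousOn
      d.differentiableOn
    refine ⟨x - 1, by linarith [hx.2], ?_⟩
    rw [e, z0 (x - 1 - 1) (by linarith [hx.2]), sub_add_cancel, k]
    simp [s]

theorem dg_piola {V E : Type} [NormedAddCommGroup V] [NormedSpace ℝ V] [NormedAddCommGroup E]
    [NormedSpace ℝ E] [FiniteDimensional ℝ E] {N : ℕ} (hN : finrank ℝ E = N)
    (v : Fin (N + 1) → V) {g : V → E} {z : V} (hg : ContDiffAt ℝ ∞ g z)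
    (θ : E → E [⋀^Fin N]→L[ℝ] ℝ) (hθ : DifferentiableAt ℝ θ (g z)) :
    ∑ j : Fin (N + 1), (-1) ^ (j : ℕ) * fderiv ℝ (fun w => θ (g w) fun k =>
      fderiv ℝ g w (v (j.succAbove k))) z (v j) = 0 := by
  have h1 := extDeriv_pullback hθ hg
    (by simp only [minSmoothness_of_isRCLikeNormedField]; norm_cast)
  have h2 : extDeriv θ (g z) = 0 := by
    ext u
    refine (extDeriv θ (g z)).toAlternatingMap.map_linearDependent u fun k => ?_
    have := k.fintype_card_le_finrank
    rw [hN, Fintype.card_fin] at this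
    omega
  have h4 := extDeriv_apply ((hθ.comp z
    (hg.differentiableAt (by simp))).continuousAlternatingMapCompContinuousLinearMap
    ((hg.fderiv_right (m := 1) (by norm_cast)).differentiableAt one_ne_zero)) v
  simp only [Function.comp_apply] at h4
  rw [h1, h2] at h4
  refine Eq.trans (Finset.sum_congr rfl fun j _ => ?_) h4.symm
  rw [zsmul_eq_mul, Int.cast_pow, Int.cast_neg, Int.cast_one]
  rfl

theorem dg_loc {E : Type} [NormedAddCommGroup E] {K P : Set E} (hK : IsCompact K) {w : E → E}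
    (hw : ContinuousOn w K) {p : E} (u : ∀ y ∈ K, w y = p → y = p) (hP : P ∈ 𝓝 p) :
    ∃ δ > 0, ∀ y ∈ K, w y ∈ ball p δ → y ∈ P := by
  have c := ((hK.diff (isOpen_interior (s := P))).image_of_continuousOn
    (hw.mono sdiff_subset)).isClosed.isOpen_compl
  obtain ⟨δ, d0, d1⟩ := Metric.isOpen_iff.1 c p (by
    rintro ⟨y, ⟨a, b⟩, e⟩
    exact b (u y a e ▸ mem_interior_iff_mem_nhds.2 hP))
  exact ⟨δ, d0, fun y a b => by_contra fun k => d1 b ⟨y, ⟨a, fun e => k (interior_subset e)⟩, rfl⟩⟩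

theorem dg_div {V ι : Type} [NormedAddCommGroup V] [NormedSpace ℝ V] [FiniteDimensional ℝ V]
    [Fintype ι] (X : ι → V → ℝ) (v : ι → V) (a : ι → ℝ) (c : ∀ j, ContDiff ℝ 1 (X j))
    (s : ∀ j, HasCompactSupport (X j)) (p : ∀ z, 0 ≤ ∑ j, a j * fderiv ℝ (X j) z (v j)) (z : V) :
    ∑ j, a j * fderiv ℝ (X j) z (v j) = 0 := by
  borelize V
  let μ : Measure V := Measure.addHaar
  have c1 : ∀ j, Continuous fun z => fderiv ℝ (X j) z (v j) := fun j =>
    ((c j).continuous_fderiv one_ne_zero).clm_apply continuous_const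
  have s1 : ∀ j, HasCompactSupport fun z => fderiv ℝ (X j) z (v j) := fun j =>
    (s j).fderiv_apply ℝ (v j)
  have i1 : ∀ j, Integrable (fun z => fderiv ℝ (X j) z (v j)) μ := fun j =>
    (c1 j).integrable_of_hasCompactSupport (s1 j)
  have i0 : ∀ j, ∫ z, fderiv ℝ (X j) z (v j) ∂μ = 0 := fun j => by
    simpa using integral_mul_fderiv_eq_neg_fderiv_mul_of_integrable (μ := μ) (f := fun _ => (1 : ℝ))
      (g := X j) (v := v j) (by simp) (by simpa using i1 j)
      (by simpa using (c j).continuous.integrable_of_hasCompactSupport (s j))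
      (fun _ _ => differentiableAt_const _) fun x _ => (c j).differentiable one_ne_zero x
  by_contra k
  have := integral_pos_of_integrable_nonneg_nonzero (μ := μ)
    (f := fun z => ∑ j, a j * fderiv ℝ (X j) z (v j))
    (continuous_finsetSum _ fun j _ => continuous_const.mul (c1 j))
    (integrable_finsetSum _ fun j _ => (i1 j).const_mul _) p k
  rw [integral_finsetSum _ fun j _ => (i1 j).const_mul _] at this
  simp [integral_const_mul, i0] at this

theorem deg_sign {E : Type} [NormedAddCommGroup E] [NormedSpace ℝ E] [FiniteDimensional ℝ E]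
    {U K : Set E} (hU : IsOpen U) (hK : IsCompact K) (hKU : K ⊆ U) (W : ℝ × E → E)
    (hW : ∀ z : ℝ × E, z.2 ∈ U → ContDiffAt ℝ ∞ W z) {p : E} (hp : p ∈ U) {ε : ℝ} (hε : 0 < ε)
    (hpr : ∀ t y, y ∈ U → W (t, y) ∈ ball p ε → y ∈ K)
    (h0 : ∀ t ≤ 0, ∀ y, W (t, y) = W (0, y)) (h1 : ∀ t ≥ 1, ∀ y, W (t, y) = W (1, y))
    (u0 : ∀ y ∈ U, W (0, y) = p ↔ y = p) (u1 : ∀ y ∈ U, W (1, y) = p ↔ y = p)
    (d0 : 0 < (fderiv ℝ (fun y => W (0, y)) p).det) :
    0 ≤ (fderiv ℝ (fun y => W (1, y)) p).det := by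
  classical
  by_contra! d1
  let D : ℝ → E → ℝ := fun t y => (fderiv ℝ (fun y => W (t, y)) y).det
  have sl : ∀ t, ∀ y ∈ U, ContDiffAt ℝ ∞ (fun y => W (t, y)) y := fun t y hy =>
    (hW (t, y) hy).comp y (contDiffAt_const.prodMk contDiffAt_id)
  have cD : ∀ t, ContinuousAt (D t) p := fun t => ContinuousLinearMap.continuous_det.continuousAt.comp
    ((sl t p hp).fderiv_right (m := 0) (by norm_cast)).continuousAt
  have co : ∀ t, ContinuousOn (fun y => W (t, y)) K := fun t y hy =>
    (sl t y (hKU hy)).continuousAt.continuousWithinAt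
  obtain ⟨δ0, a0, b0⟩ := dg_loc hK (co 0) (fun y hy => (u0 y (hKU hy)).1)
    ((cD 0).eventually (lt_mem_nhds d0))
  obtain ⟨δ1, a1, b1⟩ := dg_loc hK (co 1) (fun y hy => (u1 y (hKU hy)).1)
    ((cD 1).eventually (gt_mem_nhds d1))
  have dp : 0 < min ε (min δ0 δ1) := lt_min hε (lt_min a0 a1)
  let f : ContDiffBump p := ⟨min ε (min δ0 δ1) / 2, min ε (min δ0 δ1), half_pos dp, half_lt_self dp⟩
  have fs : ∀ x, f x ≠ 0 → x ∈ ball p ε ∧ x ∈ ball p δ0 ∧ x ∈ ball p δ1 := fun x hx => by
    have : x ∈ ball p (min ε (min δ0 δ1)) := f.support_eq ▸ Function.mem_support.2 hx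
    simpa only [mem_ball, lt_min_iff] using this
  obtain ⟨h, hc, hs, hp0, hp1, t0, t1, t2⟩ := dg_cut
  let N := finrank ℝ E
  let b := finBasis ℝ E
  let η : E [⋀^Fin N]→L[ℝ] ℝ := ⟨⟨b.det.toMultilinearMap, by
    change Continuous fun v => b.det v
    simp only [Basis.det_apply]
    exact Continuous.matrix_det (continuous_matrix fun i j =>
      (b.coord i).continuous_of_finiteDimensional.comp (continuous_apply j))⟩,
    b.det.map_eq_zero_of_eq'⟩
  let v : Fin (N + 1) → ℝ × E := Fin.cons (1, 0) fun k => (0, b k)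
  let c : Fin (N + 1) → ℝ × E → ℝ := fun j w =>
    f (W w) * η fun k => fderiv ℝ W w (v (j.succAbove k))
  have cc : ∀ j, ∀ z : ℝ × E, z.2 ∈ U → ContDiffAt ℝ 1 (c j) z := fun j z hz =>
    ((f.contDiffAt.comp z ((hW z hz).of_le (by norm_cast))).mul
      (η.toContinuousMultilinearMap.contDiff.contDiffAt.comp z (contDiffAt_pi.2 fun k =>
        ((hW z hz).fderiv_right (by norm_cast)).clm_apply contDiffAt_const)))
  have c0 : ∀ z : ℝ × E, z.2 ∈ U → c 0 z = f (W z) * D z.1 z.2 := fun z hz => by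
    have e : fderiv ℝ (fun y => W (z.1, y)) z.2 = (fderiv ℝ W z).comp (.inr ℝ ℝ E) :=
      (((hW z hz).differentiableAt (by simp)).hasFDerivAt.comp z.2
        (hasFDerivAt_prodMk_right z.1 z.2)).fderiv
    have := b.det_comp ((fderiv ℝ W z).comp (.inr ℝ ℝ E)).toLinearMap b
    rw [b.det_self, mul_one] at this
    simp only [c, D, e, ContinuousLinearMap.det, ← this]
    rfl
  let X : Fin (N + 1) → ℝ × E → ℝ := fun j w => if w.2 ∈ U then h w.1 * c j w else 0
  have xU : ∀ j, ∀ z : ℝ × E, z.2 ∈ U → X j =ᶠ[𝓝 z] fun w => h w.1 * c j w := fun j z hz =>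
    (continuous_snd.continuousAt.eventually (hU.mem_nhds hz)).mono fun w hw => if_pos hw
  have xs : ∀ j w, X j w ≠ 0 → w ∈ Icc (-1 : ℝ) 2 ×ˢ K := fun j w hw => by
    have k : w.2 ∈ U := by_contra fun k => hw (if_neg k)
    rw [show X j w = _ from if_pos k] at hw
    exact ⟨hs _ (left_ne_zero_of_mul hw),
      hpr w.1 w.2 k (fs _ (left_ne_zero_of_mul (right_ne_zero_of_mul hw))).1⟩
  have x0 : ∀ j, ∀ z : ℝ × E, z.2 ∉ U → X j =ᶠ[𝓝 z] fun _ => 0 := fun j z hz =>
    (continuous_snd.continuousAt.eventually (hK.isClosed.isOpen_compl.mem_nhds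
      fun k => hz (hKU k))).mono fun w hw => by_contra fun k => hw (xs j w k).2
  have hh : ContDiff ℝ 1 fun w : ℝ × E => h w.1 := (hc.of_le (by norm_cast)).comp contDiff_fst
  have dv : ∀ z : ℝ × E, z.2 ∈ U → ∑ j : Fin (N + 1), (-1) ^ (j : ℕ) * fderiv ℝ (X j) z (v j) =
      deriv h z.1 * (f (W z) * D z.1 z.2) := fun z hz => by
    have pi := dg_piola rfl v (hW z hz) (fun x => f x • η)
      ((f.contDiff (n := 1)).differentiable one_ne_zero _ |>.smul_const η)
    change ∑ j : Fin (N + 1), (-1) ^ (j : ℕ) * fderiv ℝ (c j) z (v j) = 0 at pi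
    have e : fderiv ℝ (fun w : ℝ × E => h w.1) z = deriv h z.1 • ContinuousLinearMap.fst ℝ ℝ E :=
      ((hc.differentiable (by simp) z.1).hasDerivAt.comp_hasFDerivAt z hasFDerivAt_fst).fderiv
    have k : ∀ j, fderiv ℝ (X j) z (v j) =
        h z.1 * fderiv ℝ (c j) z (v j) + c j z * (deriv h z.1 * (v j).1) := fun j => by
      rw [(xU j z hz).fderiv_eq, fderiv_fun_mul (hh.differentiable one_ne_zero z)
        ((cc j z hz).differentiableAt one_ne_zero), e]
      rfl
    simp only [k, mul_add, Finset.sum_add_distrib, mul_left_comm _ (h z.1), ← Finset.mul_sum, pi]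
    rw [Fin.sum_univ_succ, ← c0 z hz]
    simp [v, mul_comm]
  have := dg_div X v (fun j => (-1) ^ (j : ℕ)) (fun j => contDiff_iff_contDiffAt.2 fun z => by
      by_cases hz : z.2 ∈ U
      · exact (hh.contDiffAt.mul (cc j z hz)).congr_of_eventuallyEq (xU j z hz)
      · exact contDiffAt_const.congr_of_eventuallyEq (x0 j z hz))
    (fun j => HasCompactSupport.of_support_subset_isCompact (isCompact_Icc.prod hK) (xs j))
    (fun z => by
      by_cases hz : z.2 ∈ U
      swap
      · simp [(x0 _ z hz).fderiv_eq]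
      rw [dv z hz]
      by_cases k : f (W z) = 0
      · simp [k]
      obtain ⟨k1, k2, k3⟩ := fs _ k
      have yK := hpr z.1 z.2 hz k1
      by_cases z0 : z.1 ≤ 0
      · have e : D z.1 z.2 = D 0 z.2 := by simp only [D, h0 _ z0]
        rw [e]
        exact mul_nonneg (hp0 _ (by linarith)) (mul_nonneg f.nonneg
          (le_of_lt (b0 _ yK (h0 _ z0 _ ▸ k2))))
      by_cases z1 : 1 ≤ z.1
      · have e : D z.1 z.2 = D 1 z.2 := by simp only [D, h1 _ z1]
        rw [e]
        exact mul_nonneg_of_nonpos_of_nonpos (hp1 _ (by linarith))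
          (mul_nonpos_of_nonneg_of_nonpos f.nonneg (le_of_lt (b1 _ yK (h1 _ z1 _ ▸ k3))))
      rw [le_antisymm (hp1 _ (not_le.1 z0)) (hp0 _ (not_le.1 z1)), zero_mul]) (t0, p)
  rw [dv _ hp] at this
  have e : D t0 p = D 0 p := by simp only [D, h0 _ t1]
  rw [e, h0 _ t1, (u0 p hp).2 rfl, f.one_of_mem_closedBall (mem_closedBall_self f.rIn_pos.le),
    one_mul] at this
  exact (mul_pos t2 d0).ne' this

end Pool.Agent.Lib.MP_2add11_gt.D5
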