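import Pool.Agent.Lib.MP_2add11_gt.D5.Rep

/-!
`K₁(ℤ[D₅])` is generated by the trivial units and the unit `1 - t + s`.
-/

noncomputable section

namespace Pool.Agent.Lib.MP_2add11_gt.D5

open QuadraticAlgebra FG DihedralGroup Matrix

variable {W n : Type} [AddCommGroup W] [Fintype n] [DecidableEq n] (s : Inv ZD W)

def cmR : Matrix n n ZD →+* Matrix (n × Fin 2) (n × Fin 2) O :=
  (compRingEquiv n (Fin 2) O).toRingHom.comp rho.mapMatrix

theorem cmR_apply (A : Matrix n n ZD) (p q : n × Fin 2) : cmR A p q = rho (A p.1 q.1) p.2 q.2 := rfl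

theorem ker_zero {B : Matrix n n ZD} (hB : IsUnit B) (h : cmR B = 1) : s.c B = 0 := by
  have key : ∀ {B : Matrix n n ZD}, cmR B = 1 → ∃ B' : Matrix n n R1,
      B'.map e0 = 1 ∧ B'.map f1 = B := fun {B} h => by
    have h1 : cmR (B - 1) = 0 := by rw [map_sub, h, map_one, sub_self]
    have h2 : ∀ i j, ∃ z : R1, e0 z = 0 ∧ f1 z = (B - 1) i j := fun i j => rho_ker (by
      ext1 a b
      exact congrFun (congrFun h1 (i, a)) (j, b))
    choose X h3 h4 using h2
    refine ⟨1 + of X, ?_, ?_⟩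
    · ext1 i j
      simp [h3, one_apply, apply_ite e0]
    · ext1 i j
      simp [h4, one_apply, apply_ite f1]
  obtain ⟨u, rfl⟩ := hB
  obtain ⟨B, h1, h2⟩ := key h
  obtain ⟨C, -, h4⟩ := key (B := (↑u⁻¹ : Matrix n n ZD)) (by
    rw [← mul_one (cmR _), ← h, ← map_mul, u.inv_mul, map_one, h])
  have inj := Matrix.map_injective (m := n) (n := n) f1_inj
  have hu : IsUnit B := isUnit_of_inv (B := C)
    (inj (by simp only [Matrix.map_mul, h2, h4, u.mul_inv]; simp))
    (inj (by simp only [Matrix.map_mul, h2, h4, u.inv_mul]; simp))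
  rw [← h2]
  exact ker1 (s.pull f1) hu h1

def Z (M : Matrix (n × Fin 2) (n × Fin 2) O) : Prop :=
  ∃ B : Matrix n n ZD, IsUnit B ∧ s.c B = 0 ∧ cmR B = M

def P (M : Matrix (n × Fin 2) (n × Fin 2) O) : Prop :=
  ∀ A : Matrix n n ZD, IsUnit A → cmR A = M → s.c A = 0

variable {s} {M M' : Matrix (n × Fin 2) (n × Fin 2) O}

theorem Z.mul (h : Z s M) (h' : Z s M') : Z s (M * M') := by
  obtain ⟨B, h1, h2, rfl⟩ := h
  obtain ⟨B', h1', h2', rfl⟩ := h'
  exact ⟨B * B', h1.mul h1', by rw [s.mul h1 h1', h2, h2', add_zero], map_mul _ _ _⟩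

theorem Z.inv (h : Z s M) (h' : M * M' = 1) : Z s M' := by
  obtain ⟨B, ⟨u, rfl⟩, h2, rfl⟩ := h
  refine ⟨↑u⁻¹, u⁻¹.isUnit, ?_, ?_⟩
  · have := s.mul u.isUnit u⁻¹.isUnit
    rw [u.mul_inv, s.one, h2, zero_add] at this
    exact this.symm
  · rw [← mul_one (cmR _), ← h', ← mul_assoc, ← map_mul, u.inv_mul, map_one, one_mul]

theorem P.of_right (h : Z s M') (h' : P s (M * M')) : P s M := by
  obtain ⟨B, h1, h2, rfl⟩ := h
  intro A hA e
  have := h' _ (hA.mul h1) (by rw [map_mul, e])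
  rwa [s.mul hA h1, h2, add_zero] at this

theorem P.of_left (h : Z s M') (h' : P s (M' * M)) : P s M := by
  obtain ⟨B, h1, h2, rfl⟩ := h
  intro A hA e
  have := h' _ (h1.mul hA) (by rw [map_mul, e])
  rwa [s.mul h1 hA, h2, zero_add] at this

theorem Z.toP (h : Z s M) : P s M := by
  obtain ⟨C, hC⟩ : ∃ C, M * C = 1 := by
    obtain ⟨B, h1, -, rfl⟩ := h
    exact (h1.map cmR).exists_right_inv
  exact P.of_right (h.inv hC) (hC ▸ fun A hA e => ker_zero s hA e)

def col (p : n × Fin 2) : Bool := p.2 = 0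

omit [Fintype n] [DecidableEq n] in
theorem al_iff {p q : n × Fin 2} {x : O} : Al pp col p q x ↔ (p.2 = 0 → q.2 = 1 → pp ∣ x) := by
  obtain ⟨i, a⟩ := p
  obtain ⟨j, b⟩ := q
  fin_cases a <;> fin_cases b <;> simp [Al, col]

theorem Z.tv0 {p q : n × Fin 2} (h : p.1 ≠ q.1) {x : O} (hx : Al pp col p q x) :
    Z s (transvection p q x) := by
  obtain ⟨y, hy⟩ := rho_onto p.2 q.2 x (al_iff.1 hx)
  have := s.nilp (fun i : n => if i = p.1 then 1 else 0) (N := single p.1 q.1 y) fun i j hij => by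
    obtain ⟨rfl, rfl⟩ : p.1 = i ∧ q.1 = j := by
      by_contra hn
      exact hij (single_apply_of_ne _ _ _ _ _ hn)
    simp [h.symm]
  refine ⟨_, this.1, this.2, ?_⟩
  rw [map_add, map_one, transvection]
  congr 1
  ext1 ⟨i, a⟩ ⟨j, b⟩
  rw [cmR_apply]
  by_cases e : p.1 = i ∧ q.1 = j
  · obtain ⟨rfl, rfl⟩ := e
    simp [hy, single_apply, Prod.ext_iff]
  · rw [single_apply_of_ne _ _ _ _ _ e, single_apply_of_ne _ _ _ _ _ fun h =>
      e ⟨congrArg Prod.fst h.1, congrArg Prod.fst h.2⟩, map_zero, Matrix.zero_apply]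

theorem tv_comm {I : Type} [Fintype I] [DecidableEq I] {i j k : I} (h1 : i ≠ j) (h2 : j ≠ k)
    (h3 : i ≠ k) (x : O) : transvection i j (1 : O) * transvection j k x * transvection i j (-1) *
      transvection j k (-x) = transvection i k x := by
  simp [transvection, mul_add, add_mul, h1.symm, h2.symm, h3.symm, ← single_neg]
  abel

theorem Z.tv [Nontrivial n] {p q : n × Fin 2} (h : p ≠ q) {x : O} (hx : Al pp col p q x) :
    Z s (transvection p q x) := by
  by_cases e : p.1 = q.1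
  · obtain ⟨l, hl⟩ := exists_ne p.1
    have a1 : ∀ y, Al pp col p (l, p.2) y := fun y => al_iff.2 fun h1 h2 => by
      simp [h1] at h2
    have a2 : ∀ y, Al pp col p q y → Al pp col (l, p.2) q y := fun y h => al_iff.2 (al_iff.1 h)
    have n2 : (l, p.2).1 ≠ q.1 := e ▸ hl
    rw [← tv_comm (j := (l, p.2)) (fun h => hl (congrArg Prod.fst h).symm)
      (fun h => n2 (congrArg Prod.fst h)) h]
    exact (((Z.tv0 hl.symm (a1 _)).mul (Z.tv0 n2 (a2 _ hx))).mul (Z.tv0 hl.symm (a1 _))).mul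
      (Z.tv0 n2 (a2 _ fun a b => (hx a b).neg_right))
  · exact Z.tv0 e hx

def blk (i0 : n) (m : Matrix (Fin 2) (Fin 2) O) : Matrix (n × Fin 2) (n × Fin 2) O :=
  compRingEquiv n (Fin 2) O (diagonal fun i => if i = i0 then m else 1)

theorem blk_mul (i0 : n) (m m' : Matrix (Fin 2) (Fin 2) O) :
    blk i0 (m * m') = blk i0 m * blk i0 m' := by
  rw [blk, blk, blk, ← map_mul, diagonal_mul_diagonal]
  congr 2
  ext1 i
  split_ifs <;> simp

theorem blk_one (i0 : n) : blk i0 1 = 1 := by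
  rw [blk, ← map_one (compRingEquiv n (Fin 2) O)]
  simp only [ite_self, diagonal_one]

theorem blk_apply (i0 : n) (m : Matrix (Fin 2) (Fin 2) O) (p q : n × Fin 2) :
    blk i0 m p q = if p.1 = q.1 then (if p.1 = i0 then m else 1) p.2 q.2 else 0 := by
  change (diagonal fun i => if i = i0 then m else 1) p.1 q.1 p.2 q.2 = _
  rw [diagonal_apply]
  split_ifs <;> rfl

theorem blk_tv (i0 : n) (a b : Fin 2) (x : O) :
    blk i0 (transvection a b x) = transvection (i0, a) (i0, b) x := by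
  ext1 ⟨i, c⟩ ⟨j, d⟩
  rw [blk_apply]
  by_cases h : i = j
  · subst h
    by_cases h : i = i0
    · simp [h, transvection, one_apply, single_apply]
    · simp [h, Ne.symm h, transvection, one_apply]
  · have : ¬ (i0 = i ∧ i0 = j) := fun e => h (e.1.symm.trans e.2)
    simp [h, transvection, single_apply]
    exact fun h1 _ h2 => absurd ⟨h1, h2⟩ this

theorem Z.unit (i0 : n) {x : ZD} (hx : IsUnit x) (h : s.c (u1 x) = 0) : Z s (blk i0 (rho x)) := by
  have h1 : s.c (u1 (1 : ZD)) = 0 := by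
    rw [← s.one (n := Unit)]
    congr 1
  have := s.diag (d := fun i : n => if i = i0 then x else 1)
    (fun i => by split_ifs; exacts [hx, isUnit_one]) fun i => by split_ifs; exacts [h, h1]
  refine ⟨_, this.1, this.2, ?_⟩
  ext1 p q
  rw [cmR_apply, blk_apply, diagonal_apply]
  split_ifs <;> simp

def g0 : ZD := 1 - .single (r 1) 1 + .single (sr 0) 1

theorem dg_ok [Nontrivial n] (i0 : n)
    (ht : ∀ (g : D) (x : ZD), (x = .single g 1 ∨ x = -.single g 1) → IsUnit x ∧ s.c (u1 x) = 0)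
    (hu : IsUnit g0) (hg : s.c (u1 g0) = 0) {a b : O} (ha : IsUnit a) (hb : IsUnit b)
    (ha' : pp ∣ a * a - 1) (hb' : pp ∣ b * b - 1) : Z s (blk i0 !![a, 0; 0, b]) := by
  let Y : Matrix (Fin 2) (Fin 2) O → Prop := fun m => Z s (blk i0 m)
  have ym : ∀ {m m' m''}, Y m → Y m' → m * m' = m'' → Y m'' := fun h h' e => by
    subst e
    exact (congrArg (Z s) (blk_mul i0 _ _)).mpr (h.mul h')
  have yi : ∀ {m m'}, Y m → m * m' = 1 → Y m' := fun h e =>
    h.inv (by rw [← blk_mul, e, blk_one])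
  have lo : ∀ x, Y (transvection 1 0 x) := fun x =>
    (congrArg (Z s) (blk_tv i0 1 0 x)).mpr (Z.tv (by simp) (al_iff.2 (by simp)))
  have up : ∀ x, pp ∣ x → Y (transvection 0 1 x) := fun x hx =>
    (congrArg (Z s) (blk_tv i0 0 1 x)).mpr (Z.tv (by simp) (al_iff.2 fun _ _ => hx))
  have y1 : Y (rF (sr 0)) := by
    have := ht (sr 0) _ (.inl rfl)
    simpa [rho_single] using Z.unit i0 this.1 this.2
  have y2 : Y (-1) := by
    have := ht 1 _ (.inr rfl)
    have := Z.unit i0 this.1 this.2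
    rwa [map_neg, ← MonoidAlgebra.one_def, map_one] at this
  have y3 : Y (1 - rF (r 1) + rF (sr 0)) := by
    simpa [g0, rho_single] using Z.unit i0 hu hg
  have z1 : Y !![1, 0; 0, -1] := ym y1 (up (-pp) (dvd_refl _).neg_right) (by decide +kernel)
  have z2 : Y !![1, 0; 0, w2] := ym (lo (-1)) y3 (by decide +kernel)
  have z3 : Y !![-w2, 0; 0, -w2'] := ym (ym (ym (up (-w2 - 1) (pp_dvd.2 (by decide))) (lo 1) rfl)
    (up (-w2' - 1) (pp_dvd.2 (by decide))) rfl) (lo w2) (by decide +kernel)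
  have z4 : Y !![w2, 0; 0, 1] := ym (ym z3 y2 rfl) z2 (by decide +kernel)
  have z5 : Y !![w2', 0; 0, 1] := yi z4 (by decide +kernel)
  have z6 : Y !![1, 0; 0, w2'] := yi z2 (by decide +kernel)
  have z7 : Y !![1, 0; 0, 1] := ym z1 z1 (by decide +kernel)
  have ww : w2 * w2' = 1 := by decide
  have ww' : w2' * w2 = 1 := by decide
  have k1 := unitInd (fun a => Y !![a, 0; 0, 1]) z7 (ym y2 z1 (by decide +kernel))
    (fun a h => ym h z5 (by simp [mul_assoc, ww])) (fun a h => ym h z4 (by simp [mul_assoc, ww']))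
    a ha ha'
  have k2 := unitInd (fun a => Y !![1, 0; 0, a]) z7 z1
    (fun a h => ym h z6 (by simp [mul_assoc, ww])) (fun a h => ym h z2 (by simp [mul_assoc, ww']))
    b hb hb'
  exact ym k1 k2 (by simp)

theorem gen_aux [Nontrivial n]
    (ht : ∀ (g : D) (x : ZD), (x = .single g 1 ∨ x = -.single g 1) → IsUnit x ∧ s.c (u1 x) = 0)
    (hu : IsUnit g0) (hg : s.c (u1 g0) = 0) {A : Matrix n n ZD} (hA : IsUnit A) : s.c A = 0 := by
  have red : Red pp col (P s (n := n)) :=
    ⟨fun M k j x h hx => P.of_right (Z.tv h hx), fun M k j x h hx => P.of_left (Z.tv h hx)⟩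
  obtain ⟨i0, -⟩ := exists_pair_ne n
  refine til_red red pp_not eucE eucF (collect red (i0 := (i0, 0)) (i1 := (i0, 1)) rfl rfl
    fun d hd h1 => ?_) Finset.univ _ ⟨hA.map cmR, fun p q => al_iff.2 fun h1 h2 => ?_, by simp⟩ A hA rfl
  · intro A hA e
    have sq : ∀ a : Fin 2, pp ∣ d (i0, a) * d (i0, a) - 1 := fun a => ph_zero (by
      have h2 : (A.map (ep a)).map (Int.castRingHom (ZMod 5)) = diagonal fun i => ph (d (i, a)) := by
        ext1 i j
        rw [map_apply, map_apply, eq_intCast, ← ph_rho]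
        change ph (cmR A (i, a) (j, a)) = _
        rw [e, diagonal_apply, diagonal_apply]
        by_cases h : i = j <;> simp [h]
      have h3 := congrArg det h2
      rw [det_diagonal, Finset.prod_eq_single i0 (fun i _ hi => by
        rw [h1 (i, a) (by simp [hi]) (by simp [hi]), map_one]) (by simp),
        ← RingHom.mapMatrix_apply, ← RingHom.map_det] at h3
      have h4 := Int.isUnit_mul_self
        ((isUnit_iff_isUnit_det _).1 (hA.map (ep a).mapMatrix))
      rw [RingHom.mapMatrix_apply] at h4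
      rw [map_sub, map_mul, ← h3, ← map_mul, h4, map_one, map_one, sub_self])
    refine (dg_ok i0 ht hu hg (hd (i0, 0)) (hd (i0, 1)) (sq 0) (sq 1)).toP A hA (e.trans ?_)
    ext1 ⟨i, a⟩ ⟨j, b⟩
    rw [blk_apply, diagonal_apply]
    by_cases h : i = j
    · subst h
      by_cases h : i = i0
      · subst h
        fin_cases a <;> fin_cases b <;> simp
      · simp [h, h1 (i, a) (by simp [h]) (by simp [h]), one_apply]
    · simp [h]
  · rw [cmR_apply, h1, h2]
    exact rho_til _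

theorem gen_all
    (ht : ∀ (g : D) (x : ZD), (x = .single g 1 ∨ x = -.single g 1) → IsUnit x ∧ s.c (u1 x) = 0)
    (hu : IsUnit g0) (hg : s.c (u1 g0) = 0) {A : Matrix n n ZD} (hA : IsUnit A) : s.c A = 0 := by
  have : Nontrivial (n ⊕ Bool) := ⟨.inr true, .inr false, by simp⟩
  rw [← s.stab' (m := Bool) hA]
  exact gen_aux ht hu hg (isUnit_blocks hA isUnit_one)

theorem gen_mem (s : Inv ZD W) (H : AddSubgroup W)
    (ht : ∀ (g : D) (x : ZD), (x = .single g 1 ∨ x = -.single g 1) → IsUnit x ∧ s.c (u1 x) = 0)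
    (hu : IsUnit g0) (hg : s.c (u1 g0) ∈ H) {A : Matrix n n ZD} (hA : IsUnit A) : s.c A ∈ H := by
  rw [← QuotientAddGroup.eq_zero_iff]
  refine gen_all (s := s.map (W' := W ⧸ H) (QuotientAddGroup.mk' H)) (fun g x h =>
    ⟨(ht g x h).1, ?_⟩) hu ?_ hA
  · exact (QuotientAddGroup.eq_zero_iff _).2 ((ht g x h).2 ▸ H.zero_mem)
  · exact (QuotientAddGroup.eq_zero_iff _).2 hg

theorem wh_gen (hu : IsUnit g0) (x : Wh D) :
    x ∈ AddSubgroup.zmultiples ((whInv D).c (u1 g0)) := by
  induction x using QuotientAddGroup.induction_on with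
  | H x =>
  induction x using QuotientAddGroup.induction_on with
  | H x =>
  induction x using FreeAbelianGroup.induction_on with
  | zero => exact zero_mem _
  | of A =>
    change Wh.cls A.2 ∈ _
    rw [← whInv_val A.2]
    exact gen_mem _ _ (fun g _ h => whInv_triv g h) hu (AddSubgroup.mem_zmultiples _) A.2.isUnit
  | neg A h => exact neg_mem h
  | add x y hx hy => exact add_mem hx hy

end Pool.Agent.Lib.MP_2add11_gt.D5
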