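import Mathlib

/-!
Arithmetic of the ring `ℤ[ω]`, `ω² = 1 - ω`: division with remainder and units.
-/

namespace Pool.Agent.Lib.MP_2add11_gt.D5

open QuadraticAlgebra

abbrev O : Type := QuadraticAlgebra ℤ 1 (-1)

def pp : O := ⟨2, -1⟩

theorem nm_def (x : O) : x.norm = x.re ^ 2 - x.re * x.im - x.im ^ 2 := by
  rw [norm_def]; ring

theorem nm_zero {x : O} (h : x.norm = 0) : x = 0 := by
  rw [nm_def] at h
  have h2 : x.im = 0 := by
    by_contra hv
    have hv' : (x.im : ℝ) ≠ 0 := by exact_mod_cast hv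
    refine Nat.prime_five.irrational_sqrt ⟨|(2 * x.re - x.im : ℚ) / x.im|, ?_⟩
    have h' : (x.re : ℝ) ^ 2 - x.re * x.im - x.im ^ 2 = 0 := by exact_mod_cast h
    have : (((5 : ℕ) : ℝ)) = ((2 * x.re - x.im : ℝ) / x.im) ^ 2 := by
      field_simp
      push_cast
      linear_combination -4 * h'
    rw [this, Real.sqrt_sq_eq_abs]
    push_cast
    rfl
  rw [h2] at h
  ext
  · simpa using h
  · exact h2

theorem rnd (x : ℤ) {D : ℤ} (hD : D ≠ 0) : ∃ q : ℤ, 4 * (x - q * D) ^ 2 ≤ D ^ 2 := by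
  have h1 := Int.emod_nonneg x hD
  have h2 := Int.emod_lt_abs x hD
  have h3 := Int.emod_add_mul_ediv x D
  have h4 := sq_abs D
  by_cases h : 2 * (x % D) ≤ |D|
  · exact ⟨x / D, by rw [show x - x / D * D = x % D by linear_combination -h3]; nlinarith⟩
  · rcases abs_cases D with ⟨e, -⟩ | ⟨e, -⟩
    · exact ⟨x / D + 1, by
        rw [show x - (x / D + 1) * D = x % D - |D| by linear_combination -h3 + e]; nlinarith⟩
    · exact ⟨x / D - 1, by
        rw [show x - (x / D - 1) * D = x % D - |D| by linear_combination -h3 + e]; nlinarith⟩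

theorem divO (a : O) {b : O} (hb : b ≠ 0) : ∃ q : O, 16 * |(a - q * b).norm| ≤ 5 * |b.norm| := by
  have hD : b.norm ≠ 0 := fun h => hb (nm_zero h)
  obtain ⟨q1, h1⟩ := rnd (a * star b).re hD
  obtain ⟨q2, h2⟩ := rnd (a * star b).im hD
  refine ⟨⟨q1, q2⟩, ?_⟩
  have e : (a - ⟨q1, q2⟩ * b) * star b =
      ⟨(a * star b).re - q1 * b.norm, (a * star b).im - q2 * b.norm⟩ := by
    rw [sub_mul, mul_assoc, ← algebraMap_norm_eq_mul_star]
    ext <;> simp
  have e2 := congrArg QuadraticAlgebra.norm e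
  rw [map_mul, QuadraticAlgebra.norm_star, 
    nm_def ⟨(a * star b).re - q1 * b.norm, (a * star b).im - q2 * b.norm⟩] at e2
  simp only at e2
  generalize (a * star b).re - q1 * b.norm = r, (a * star b).im - q2 * b.norm = s at h1 h2 e2
  have h3 : 16 * |(a - ⟨q1, q2⟩ * b).norm * b.norm| ≤ 5 * b.norm ^ 2 := by
    rw [e2]
    rcases abs_cases (r ^ 2 - r * s - s ^ 2) with ⟨h, -⟩ | ⟨h, -⟩ <;> rw [h]
    · nlinarith [sq_nonneg (r + 2 * s)]
    · nlinarith [sq_nonneg (2 * r - s)]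
  rw [abs_mul, ← sq_abs] at h3
  have := abs_pos.2 hD
  nlinarith

theorem eucE (Q : O → O → Prop) (h1 : ∀ a b x, Q (a + x * b) b → Q a b)
    (h2 : ∀ a b x, Q a (b + x * a) → Q a b) (h0 : ∀ a, Q a 0) (a b : O) : Q a b := by
  induction hn : b.norm.natAbs using Nat.strong_induction_on generalizing a b with
  | _ n ih =>
  by_cases hb : b = 0
  · exact hb ▸ h0 a
  obtain ⟨q, hq⟩ := divO a hb
  have hD := abs_pos.2 fun h => hb (nm_zero h)
  refine h1 a b (1 - q) (h2 _ _ (-1) ?_)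
  rw [show b + -1 * (a + (1 - q) * b) = -(a - q * b) by ring]
  refine ih _ ?_ _ _ rfl
  rw [QuadraticAlgebra.norm_neg, ← hn]
  zify
  omega

theorem eucF (Q : O → O → Prop) (h1 : ∀ a b x, Q (a + x * b) b → Q a b)
    (h2 : ∀ a b x, Q a (b + pp * x * a) → Q a b) (h0 : ∀ a, Q a 0) (a b : O) (ha : ¬ pp ∣ a)
    (hb : pp ∣ b) : Q a b := by
  induction hn : a.norm.natAbs using Nat.strong_induction_on generalizing a b with
  | _ n ih =>
  obtain ⟨b, rfl⟩ := hb
  have a0 : a ≠ 0 := fun h => ha (h ▸ dvd_zero _)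
  obtain ⟨q, hq⟩ := divO b a0
  have hD := abs_pos.2 fun h => a0 (nm_zero h)
  refine h2 a _ (-q) ?_
  rw [show pp * b + pp * -q * a = pp * (b - q * a) by ring]
  generalize b - q * a = r at hq
  by_cases hr : pp * r = 0
  · exact hr ▸ h0 a
  obtain ⟨q', hq'⟩ := divO a hr
  refine h1 a _ (-q') (ih _ ?_ _ _ (fun h => ha ?_) (dvd_mul_right _ _) rfl)
  · rw [map_mul, show pp.norm = 5 by decide, abs_mul, show |(5 : ℤ)| = 5 by decide] at hq'
    rw [show a + -q' * (pp * r) = a - q' * (pp * r) by ring, ← hn]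
    zify
    omega
  · have := h.add ((dvd_mul_right pp r).mul_left q')
    rwa [show a + -q' * (pp * r) + q' * (pp * r) = a by ring] at this

theorem pp_not : ¬ IsUnit pp := by
  rw [isUnit_iff_norm_isUnit, show pp.norm = 5 by decide, Int.isUnit_iff]
  decide

def w2 : O := ⟨1, -1⟩

def w2' : O := ⟨2, 1⟩

theorem unitInd (Q : O → Prop) (h1 : Q 1) (h2 : Q (-1)) (h3 : ∀ a, Q (a * w2) → Q a)
    (h4 : ∀ a, Q (a * w2') → Q a) (a : O) (ha : IsUnit a) (hm : pp ∣ a * a - 1) : Q a := by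
  induction hn : (2 * a.re ^ 2 - 2 * a.re * a.im + 3 * a.im ^ 2).natAbs
    using Nat.strong_induction_on generalizing a with
  | _ n ih =>
  have hN := Int.isUnit_iff.1 (isUnit_iff_norm_isUnit.1 ha)
  rw [nm_def] at hN
  have u1 : IsUnit w2 := IsUnit.of_mul_eq_one w2' (by decide)
  have u2 : IsUnit w2' := IsUnit.of_mul_eq_one w2 (by decide)
  have d1 : pp ∣ w2 * w2 - 1 := ⟨⟨0, -1⟩, by decide⟩
  have d2 : pp ∣ w2' * w2' - 1 := ⟨⟨3, 2⟩, by decide⟩
  have pos : ∀ x y : ℤ, 0 ≤ 2 * x ^ 2 - 2 * x * y + 3 * y ^ 2 := fun x y => by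
    nlinarith [sq_nonneg (x - y), sq_nonneg x, sq_nonneg y]
  by_cases h : 2 * a.re ^ 2 - 2 * a.re * a.im + 3 * a.im ^ 2 ≤ 3
  · obtain ⟨x, y⟩ := a
    obtain ⟨⟨c, d⟩, hm⟩ := hm
    have m1 := congrArg re hm
    have m2 := congrArg im hm
    simp [pp] at m1 m2
    simp only at h hN
    have b1 : x ≤ 1 := by nlinarith [sq_nonneg (x - 3 * y)]
    have b2 : -1 ≤ x := by nlinarith [sq_nonneg (x - 3 * y)]
    have b3 : y ≤ 1 := by nlinarith [sq_nonneg (2 * x - y)]
    have b4 : -1 ≤ y := by nlinarith [sq_nonneg (2 * x - y)]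
    interval_cases x <;> interval_cases y <;> first | omega | exact h1 | exact h2
  · have e1 : (a * w2).re = a.re - a.im := by simp [w2]; ring
    have e2 : (a * w2).im = 2 * a.im - a.re := by simp [w2]; ring
    have e3 : (a * w2').re = 2 * a.re + a.im := by simp [w2']; ring
    have e4 : (a * w2').im = a.re + a.im := by simp [w2']; ring
    have hN2 : (a.re ^ 2 - a.re * a.im - a.im ^ 2) ^ 2 = 1 := by
      rcases hN with h | h <;> rw [h] <;> norm_num
    by_cases c1 : 2 * (a * w2).re ^ 2 - 2 * (a * w2).re * (a * w2).im + 3 * (a * w2).im ^ 2 <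
        2 * a.re ^ 2 - 2 * a.re * a.im + 3 * a.im ^ 2
    · refine h3 a (ih _ ?_ _ (ha.mul u1) ?_ rfl)
      · have := pos (a * w2).re (a * w2).im
        omega
      · rw [show a * w2 * (a * w2) - 1 = (a * a - 1) * (w2 * w2) + (w2 * w2 - 1) by ring]
        exact (hm.mul_right _).add d1
    · refine h4 a (ih _ ?_ _ (ha.mul u2) ?_ rfl)
      · have := pos (a * w2').re (a * w2').im
        have c2 : 2 * (a * w2').re ^ 2 - 2 * (a * w2').re * (a * w2').im + 3 * (a * w2').im ^ 2 <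
            2 * a.re ^ 2 - 2 * a.re * a.im + 3 * a.im ^ 2 := by
          by_contra c2
          rw [e1, e2, not_lt, ← sub_nonneg] at c1
          rw [e3, e4, not_lt, ← sub_nonneg] at c2
          have := mul_nonneg c1 c2
          generalize a.re = x, a.im = y at *
          have e : (2 * (x - y) ^ 2 - 2 * (x - y) * (2 * y - x) + 3 * (2 * y - x) ^ 2 -
              (2 * x ^ 2 - 2 * x * y + 3 * y ^ 2)) * (2 * (2 * x + y) ^ 2 -
              2 * (2 * x + y) * (x + y) + 3 * (x + y) ^ 2 - (2 * x ^ 2 - 2 * x * y + 3 * y ^ 2)) =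
              45 - 5 * (2 * x ^ 2 - 2 * x * y + 3 * y ^ 2) ^ 2 := by
            linear_combination 45 * hN2
          rw [e] at this
          nlinarith
        omega
      · rw [show a * w2' * (a * w2') - 1 = (a * a - 1) * (w2' * w2') + (w2' * w2' - 1) by ring]
        exact (hm.mul_right _).add d2

end Pool.Agent.Lib.MP_2add11_gt.D5
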