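import Pool.Agent.Lib.MP_2add11_gt.C5.A
import Pool.Agent.Lib.MP_2add11_gt.D5.Gold

/-!
The commutative ring `ℤ[s, ν]`, `s² = 1`, `ν² = 5ν`: its Mennicke symbols vanish.
-/

noncomputable section

namespace Pool.Agent.Lib.MP_2add11_gt.D5

open QuadraticAlgebra FG

theorem dir2 (m b : ℤ) (hb : b ≠ 0) (h : IsCoprime m b) (l : ℕ) (hl : l.Prime) :
    ∃ (t : ℤ) (k : ℕ), ¬ l ∣ k ∧ ∀ x, x ∣ b → ∃ η : ℤ, η * η = 1 ∧ m + t * b ∣ x ^ k - η := by
  have c1 : ((b.natAbs : ℕ) : ℤ) ∣ b := Int.natAbs_dvd.2 dvd_rfl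
  have c2 : b ∣ ((b.natAbs : ℕ) : ℤ) := Int.dvd_natAbs.2 dvd_rfl
  have c0 : b.natAbs ≠ 0 := Int.natAbs_ne_zero.2 hb
  generalize b.natAbs = c at c0 c1 c2
  obtain ⟨p0, h0, hp0, e0⟩ := Nat.forall_exists_prime_gt_and_zmodEq (2 * l) c0
    (h.of_isCoprime_of_dvd_right c1)
  have l2 := hl.two_le
  obtain ⟨e, he, hne⟩ : ∃ e : ℤ, e * e = 1 ∧ ¬ (2 * l : ℤ) ∣ e * p0 - 1 := by
    by_cases h1 : (2 * l : ℤ) ∣ 1 * p0 - 1
    · refine ⟨-1, by norm_num, fun h2 => ?_⟩
      have h3 : (2 * l : ℤ) ∣ 2 := by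
        have := (h1.add h2).neg_right
        rwa [show -(1 * (p0 : ℤ) - 1 + (-1 * p0 - 1)) = 2 by ring] at this
      have := Int.le_of_dvd (by norm_num) h3
      omega
    · exact ⟨1, by norm_num, h1⟩
  obtain ⟨t0, ht0⟩ := c2.trans e0.symm.dvd
  have k1 : IsCoprime (p0 : ℤ) b := by
    rw [show (p0 : ℤ) = m + b * t0 by linear_combination ht0]
    exact h.add_mul_left_left t0
  have k2 : IsCoprime (p0 : ℤ) ((2 * l : ℕ) : ℤ) :=
    Nat.isCoprime_iff_coprime.2 (hp0.coprime_iff_not_dvd.2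
      (Nat.not_dvd_of_pos_of_lt (by omega) h0))
  have ue : IsUnit e := IsUnit.of_mul_eq_one e he
  have k3 : IsCoprime (e * p0) ((c * (2 * l) : ℕ) : ℤ) := by
    rw [Nat.cast_mul, isCoprime_mul_unit_left_left ue]
    exact (k1.of_isCoprime_of_dvd_right c1).mul_right k2
  obtain ⟨p, h2, hp, e1⟩ := Nat.forall_exists_prime_gt_and_zmodEq 2
    (Nat.mul_ne_zero c0 (by omega)) k3
  obtain ⟨k, hk⟩ := hp.odd_of_ne_two (by omega)
  obtain ⟨r, hr⟩ := e1.symm.dvd
  obtain ⟨v, hv⟩ := c2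
  push_cast at hr
  have e2 : m + (t0 + e * v * (2 * l) * r) * b = e * p := by
    linear_combination -ht0 - e * hr - e * (2 * l) * r * hv - (p0 : ℤ) * he
  have hk' : (p : ℤ) = 2 * k + 1 := by exact_mod_cast hk
  refine ⟨t0 + e * v * (2 * l) * r, k, ?_, fun x hx => ?_⟩
  · rintro ⟨j, hj⟩
    have hj' : (k : ℤ) = l * j := by exact_mod_cast hj
    exact hne ⟨j - c * r, by linear_combination -hr + hk' + 2 * hj'⟩
  · have k4 : IsCoprime b (p : ℤ) := by
      rw [← isCoprime_mul_unit_left_right ue, ← e2]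
      exact (h.add_mul_right_left _).symm
    have f := (Int.ModEq.pow_card_sub_one_eq_one hp (k4.of_isCoprime_of_dvd_left hx)).symm.dvd
    rw [show x ^ (p - 1) - 1 = (x ^ k - 1) * (x ^ k - -1) by
      rw [show p - 1 = k * 2 by omega, pow_mul]; ring] at f
    rw [e2]
    rcases (Nat.prime_iff_prime_int.1 hp).dvd_or_dvd f with f | f
    exacts [⟨1, by norm_num, ue.mul_left_dvd.2 f⟩, ⟨-1, by norm_num, ue.mul_left_dvd.2 f⟩]

abbrev R0 : Type := QuadraticAlgebra ℤ 1 0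

abbrev R1 : Type := QuadraticAlgebra R0 0 5

def cp : R0 →+* ℤ where
  toFun x := x.re + x.im
  map_one' := rfl
  map_mul' x y := by simp; ring
  map_zero' := rfl
  map_add' x y := by simp; ring

def cm : R0 →+* ℤ where
  toFun x := x.re - x.im
  map_one' := rfl
  map_mul' x y := by simp; ring
  map_zero' := rfl
  map_add' x y := by simp; ring

def e0 : R1 →+* R0 where
  toFun x := x.re
  map_one' := rfl
  map_mul' x y := by simp
  map_zero' := rfl
  map_add' x y := by simp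

def e5 : R1 →+* R0 where
  toFun x := x.re + 5 * x.im
  map_one' := by simp [re_one, im_one]
  map_mul' x y := by simp; ring
  map_zero' := by simp
  map_add' x y := by simp; ring

theorem cp_def (x : R0) : cp x = x.re + x.im := rfl

theorem cm_def (x : R0) : cm x = x.re - x.im := rfl

theorem cp_mk (x y : ℤ) : cp ⟨x, y⟩ = x + y := rfl

theorem cm_mk (x y : ℤ) : cm ⟨x, y⟩ = x - y := rfl

theorem na_lt {a b : ℤ} (h : a ^ 2 < b ^ 2) : a.natAbs < b.natAbs := by
  have := sq_lt_sq.1 h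
  zify
  exact this

theorem e0_def (x : R1) : e0 x = x.re := rfl

theorem e5_def (x : R1) : e5 x = x.re + 5 * x.im := rfl

theorem ext0 {x y : R0} (h1 : cp x = cp y) (h2 : cm x = cm y) : x = y := by
  rw [cp_def, cp_def] at h1
  rw [cm_def, cm_def] at h2
  ext <;> omega

theorem odd_iff (x : R0) : Odd (cp x) ↔ Odd (cm x) := by
  rw [cp_def, cm_def, Int.odd_iff, Int.odd_iff]; omega

theorem dvd0 {m z : R0} (h : Odd (cp m)) (h1 : cp m ∣ cp z) (h2 : cm m ∣ cm z) : m ∣ z := by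
  obtain ⟨q1, h1⟩ := h1
  obtain ⟨q2, h2⟩ := h2
  have h3 := odd_iff z
  rw [h1, h2, Int.odd_mul, Int.odd_mul, ← odd_iff, and_congr_right_iff] at h3
  have h4 := h3 h
  rw [Int.odd_iff, Int.odd_iff] at h4
  obtain ⟨k, hk⟩ : ∃ k, q1 = q2 + 2 * k := ⟨(q1 - q2) / 2, by omega⟩
  refine ⟨⟨q2 + k, k⟩, ext0 ?_ ?_⟩
  · rw [map_mul, h1, hk, cp_mk (q2 + k) k]; ring
  · rw [map_mul, h2, cm_mk (q2 + k) k]; ring

theorem ex_sign {a b : ℤ} (ha : a * a = 1) (hb : b * b = 1) :
    ∃ u : R0, u * u = 1 ∧ cp u = a ∧ cm u = b := by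
  rcases mul_self_eq_one_iff.1 ha with rfl | rfl <;> rcases mul_self_eq_one_iff.1 hb with rfl | rfl
  exacts [⟨⟨1, 0⟩, by decide, rfl, rfl⟩, ⟨⟨0, 1⟩, by decide, rfl, rfl⟩,
    ⟨⟨0, -1⟩, by decide, rfl, rfl⟩, ⟨⟨-1, 0⟩, by decide, rfl, rfl⟩]

theorem zs_ind (Q : R0 → R0 → Prop) (h1 : ∀ a b x, Q (a + x * b) b → Q a b)
    (h2 : ∀ a b x, Q a (b + x * a) → Q a b) (h0 : Q 1 0) (a b : R0) (h : IsCoprime a b) :
    Q a b := by
  have sA : ∀ a, IsUnit a → Q a 0 := fun a ha => by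
    obtain ⟨v, hv⟩ := ha.exists_right_inv
    refine h2 a 0 ((1 - a) * v) (h1 _ _ 1 (h2 _ _ (a - 1) ?_))
    rw [show 0 + (1 - a) * v * a = 1 - a by linear_combination (1 - a) * hv]
    rwa [show a + 1 * (1 - a) = 1 by ring, show 1 - a + (a - 1) * 1 = 0 by ring]
  have sB : ∀ (n : ℕ) (a b : R0), (cp a).natAbs = n → IsCoprime a b → cm b = 0 → Q a b := fun n => by
    induction n using Nat.strong_induction_on with
    | _ n ih =>
    intro a b hn h hb
    have u : IsUnit (cm a) := by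
      have := h.map cm
      rwa [hb, isCoprime_zero_right] at this
    have o : Odd (cp a) := by
      rw [odd_iff]
      rcases Int.isUnit_iff.1 u with e | e <;> rw [e] <;> decide
    have a0 : cp a ≠ 0 := fun e => by rw [e] at o; revert o; decide
    obtain ⟨q, hq⟩ := rnd b.re a0
    refine h2 a b ⟨-q, -q⟩ ?_
    have h' : IsCoprime a (b + ⟨-q, -q⟩ * a) := h.add_mul_right_right _
    have c1 : cm (b + ⟨-q, -q⟩ * a) = 0 := by rw [map_add, map_mul, hb, cm_mk (-q) (-q)]; ring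
    have c2 : cp (b + ⟨-q, -q⟩ * a) = 2 * (b.re - q * cp a) := by
      rw [map_add, map_mul, cp_mk (-q) (-q), cp_def b]
      rw [cm_def] at hb
      linear_combination -hb
    generalize b + ⟨-q, -q⟩ * a = b' at h' c1 c2
    by_cases e : cp b' = 0
    · obtain rfl : b' = 0 := ext0 (by rw [e, map_zero]) (by rw [c1, map_zero])
      exact sA a (isCoprime_zero_right.1 h')
    obtain ⟨q', hq'⟩ := rnd (cp a) e
    refine h1 a b' (-q') (ih _ ?_ _ _ rfl (h'.add_mul_right_left _) c1)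
    rw [← hn]
    refine na_lt ?_
    rw [map_add, map_mul, map_neg, map_intCast]
    have := sq_pos_of_ne_zero a0
    rw [c2] at hq' ⊢
    simp only [Int.cast_id]
    nlinarith
  induction hn : (cm b).natAbs using Nat.strong_induction_on generalizing a b with
  | _ n ih =>
  by_cases hb : cm b = 0
  · exact sB _ a b rfl h hb
  obtain ⟨q, hq⟩ := rnd (cm a) hb
  refine h1 a b (1 - q) (h2 _ _ (-1) (ih _ ?_ _ _
    ((h.add_mul_right_left _).add_mul_right_right _) rfl))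
  rw [← hn]
  refine na_lt ?_
  have := sq_pos_of_ne_zero hb
  simp only [map_add, map_mul, map_neg, map_one, map_sub, map_intCast, Int.cast_id]
  nlinarith

theorem good_int {g : R1} {D : ℤ} (hD : D ≠ 0) (h : g ∣ (D : R1)) : Good g := fun z => by
  have : NeZero D.natAbs := ⟨Int.natAbs_ne_zero.2 hD⟩
  let f : ℕ → Fin 4 → ZMod D.natAbs := fun i =>
    ![(z ^ i).re.re, (z ^ i).re.im, (z ^ i).im.re, (z ^ i).im.im]
  have key : ∀ i j, i < j → f i = f j → ∃ i k : ℕ, 0 < k ∧ g ∣ z ^ i * (z ^ k - 1) :=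
    fun i j hij e => by
      have e' : ∀ {x y : ℤ}, (x : ZMod D.natAbs) = y → ∃ c, y - x = D * c := fun h =>
        Int.natAbs_dvd.1 ((ZMod.intCast_eq_intCast_iff_dvd_sub _ _ _).1 h)
      obtain ⟨c0, h0⟩ := e' (congrFun e 0)
      obtain ⟨c1, h1⟩ := e' (congrFun e 1)
      obtain ⟨c2, h2⟩ := e' (congrFun e 2)
      obtain ⟨c3, h3⟩ := e' (congrFun e 3)
      refine ⟨i, j - i, by omega, h.trans ⟨⟨⟨c0, c1⟩, ⟨c2, c3⟩⟩, ?_⟩⟩
      rw [mul_sub, ← pow_add, mul_one, show i + (j - i) = j by omega, ← zsmul_eq_mul]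
      ext
      exacts [h0, h1, h2, h3]
  obtain ⟨i, j, hij, e⟩ := Finite.exists_ne_map_eq_of_infinite f
  rcases lt_or_gt_of_ne hij with h' | h'
  exacts [key i j h' e, key j i h' e.symm]

theorem dvd_e (g : R1) : g ∣ algebraMap R0 R1 (e0 g * e5 g) :=
  ⟨star g, by
    rw [← algebraMap_norm_eq_mul_star, norm_def, e0_def, e5_def]
    congr 1
    ring⟩

theorem good1 (a y : R1) : ∃ t, Good (a + t * (1 - a * y)) := by
  have key : ∀ (χ : R1 →+* ℤ) (t : ℤ), |χ a| < t → χ (a + t * (1 - a * y)) ≠ 0 := fun χ t ht e => by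
    simp only [map_add, map_mul, map_sub, map_one, map_intCast, Int.cast_id] at e
    by_cases h : 1 - χ a * χ y = 0
    · rw [h, mul_zero, add_zero] at e
      simp [e] at h
    · have h1 : |χ a| = t * |1 - χ a * χ y| := by
        rw [eq_neg_of_add_eq_zero_left e, abs_neg, abs_mul, abs_of_pos ((abs_nonneg _).trans_lt ht),
          ← eq_neg_of_add_eq_zero_left e]
      have h2 := Int.one_le_abs h
      have h3 := abs_nonneg (χ a)
      nlinarith
  obtain ⟨t, ht⟩ : ∃ t : ℤ, t = |cp (e0 a)| + |cm (e0 a)| + |cp (e5 a)| + |cm (e5 a)| + 1 := ⟨_, rfl⟩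
  have p1 := abs_nonneg (cp (e0 a))
  have p2 := abs_nonneg (cm (e0 a))
  have p3 := abs_nonneg (cp (e5 a))
  have p4 := abs_nonneg (cm (e5 a))
  have k1 := key (cp.comp e0) t (by rw [RingHom.comp_apply]; omega)
  have k2 := key (cm.comp e0) t (by rw [RingHom.comp_apply]; omega)
  have k3 := key (cp.comp e5) t (by rw [RingHom.comp_apply]; omega)
  have k4 := key (cm.comp e5) t (by rw [RingHom.comp_apply]; omega)
  refine ⟨t, ?_⟩
  generalize a + t * (1 - a * y) = g at k1 k2 k3 k4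
  refine good_int (D := cp (e0 g * e5 g) * cm (e0 g * e5 g)) ?_ ((dvd_e g).trans ?_)
  · rw [map_mul, map_mul]
    exact mul_ne_zero (mul_ne_zero k1 k3) (mul_ne_zero k2 k4)
  · generalize e0 g * e5 g = m
    rw [← map_intCast (algebraMap R0 R1)]
    refine map_dvd _ ⟨star m, ?_⟩
    rw [← algebraMap_norm_eq_mul_star, norm_def, cp_def, cm_def, eq_intCast]
    congr 1
    ring

variable {W : Type} [AddCommGroup W]

theorem killU {R : Type} [CommRing R] (s : Inv R W) {a b u : R} {w : W} (h : s.Sym a b w) {k : ℕ}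
    (hu : u * u = 1) (hk : a ∣ b ^ k - u) : k • w = 0 := by
  have hp : ∀ j : ℕ, s.Sym a (b ^ j) (j • w) := fun j => by
    induction j with
    | zero => simpa using s.sym_one a 0
    | succ j ih =>
      rw [pow_succ, succ_nsmul]
      exact ih.mul s h
  obtain ⟨x, hx⟩ := hk
  exact (hp k).uniq s (((((s.sym_one 1 0).addR s (u - 1)).addL s ((a - 1) * u)).addR s x).cg s
    (by linear_combination (a - 1) * hu) (by linear_combination -hx + x * (a - 1) * hu))

variable (s : Inv R1 W)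

theorem e0_alg (x : R0) : e0 (algebraMap R0 R1 x) = x := rfl

theorem e5_alg (x : R0) : e5 (algebraMap R0 R1 x) = x := by
  rw [e5_def]; simp

theorem cop5 {a b : R1} {w : W} (h : s.Sym a b w) (f : R1 →+* R0) : IsCoprime (f a) (f b) := by
  obtain ⟨c, d, h, -⟩ := h
  exact IsCoprime.map ⟨d, -c, by linear_combination h⟩ f

theorem symR {a b : R1} {w : W} (h : s.Sym a b w) (ha : e0 a = 1) (hb : e0 b = 0) : w = 0 := by
  have k3 : ∀ {a b : R1}, s.Sym a b w → e0 a = 1 → e0 b = 0 → Odd (cp (e5 a)) → cp (e5 b) ≠ 0 →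
      cm (e5 b) ≠ 0 → w = 0 := fun {a b} h ha hb o n1 n2 => by
    have c := cop5 s h e5
    have two : ∀ {x : ℤ}, Odd x → IsCoprime x 2 := fun hx => Int.isCoprime_two_right.2 hx
    rw [← AddMonoid.addOrderOf_eq_one_iff]
    by_contra hne
    obtain ⟨l, hl, hd⟩ := Nat.exists_prime_and_dvd hne
    obtain ⟨t3, k3, l3, d3⟩ := dir2 _ _ (mul_ne_zero two_ne_zero n1)
      ((two o).mul_right (c.map cp)) l hl
    obtain ⟨t4, k4, l4, d4⟩ := dir2 _ _ (mul_ne_zero two_ne_zero n2)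
      ((two ((odd_iff _).1 o)).mul_right (c.map cm)) l hl
    obtain ⟨η3, s3, d3⟩ := d3 _ (dvd_mul_left _ _)
    obtain ⟨η4, s4, d4⟩ := d4 _ (dvd_mul_left _ _)
    obtain ⟨u, hu, u1, u2⟩ := ex_sign (a := η3 ^ k4) (b := η4 ^ k3) (by rw [← mul_pow, s3, one_pow])
      (by rw [← mul_pow, s4, one_pow])
    have h1 := h.addL s (algebraMap R0 R1 ⟨t3 + t4, t3 - t4⟩)
    have g0 : e0 (a + algebraMap R0 R1 ⟨t3 + t4, t3 - t4⟩ * b) = 1 := by
      rw [map_add, map_mul, ha, hb, mul_zero, add_zero]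
    have g1 : cp (e5 (a + algebraMap R0 R1 ⟨t3 + t4, t3 - t4⟩ * b)) =
        cp (e5 a) + t3 * (2 * cp (e5 b)) := by
      rw [map_add, map_mul, e5_alg, map_add, map_mul, cp_mk (t3 + t4) (t3 - t4)]; ring
    have g2 : cm (e5 (a + algebraMap R0 R1 ⟨t3 + t4, t3 - t4⟩ * b)) =
        cm (e5 a) + t4 * (2 * cm (e5 b)) := by
      rw [map_add, map_mul, e5_alg, map_add, map_mul, cm_mk (t3 + t4) (t3 - t4)]; ring
    generalize a + algebraMap R0 R1 ⟨t3 + t4, t3 - t4⟩ * b = a' at h1 g0 g1 g2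
    have h2 : s.Sym a' (algebraMap R0 R1 (e5 b)) w :=
      (h1.addR s ⟨5 * b.im, -b.im⟩).cg s rfl (by
        rw [e0_def] at g0 hb
        ext1
        · simp [e5_def, g0]
        · simp [g0])
    have h3 : e5 a' ∣ e5 b ^ (k3 * k4) - u := by
      refine dvd0 ?_ ?_ ?_
      · rw [g1]
        exact o.add_even ((even_two_mul _).mul_left _)
      · rw [g1, map_sub, map_pow, u1, pow_mul]
        exact d3.trans (sub_dvd_pow_sub_pow _ _ _)
      · rw [g2, map_sub, map_pow, u2, mul_comm k3, pow_mul]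
        exact d4.trans (sub_dvd_pow_sub_pow _ _ _)
    have h4 := dvd_e a'
    rw [g0, one_mul] at h4
    have h5 := h4.trans (map_dvd (algebraMap R0 R1) h3)
    rw [map_sub, map_pow] at h5
    have h6 := killU s h2 (by rw [← map_mul, hu, map_one]) h5
    rcases (Nat.Prime.dvd_mul hl).1 (hd.trans (addOrderOf_dvd_of_nsmul_eq_zero h6)) with e | e
    exacts [l3 e, l4 e]
  have k2 : ∀ {a b : R1}, s.Sym a b w → e0 a = 1 → e0 b = 0 → Odd (cp (e5 a)) → w = 0 :=
    fun {a b} h ha hb o => by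
      have o' := (odd_iff _).1 o
      obtain ⟨k, n1, n2⟩ : ∃ k : ℤ, cp (e5 b) + 5 * k * cp (e5 a) ≠ 0 ∧
          cm (e5 b) + 5 * k * cm (e5 a) ≠ 0 := by
        rw [Int.odd_iff] at o o'
        by_contra hn
        push Not at hn
        have a0 := hn 0
        have a1 := hn 1
        have a2 := hn 2
        omega
      have q0 : e0 (⟨0, k⟩ : R1) = 0 := rfl
      have q5 : e5 (⟨0, k⟩ : R1) = 5 * k := by rw [e5_def]; simp
      refine k3 (h.addR s ⟨0, k⟩) ha (by rw [map_add, map_mul, hb, q0, zero_mul, add_zero]) o ?_ ?_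
      · rw [map_add, map_mul, q5]
        simpa [map_ofNat] using n1
      · rw [map_add, map_mul, q5]
        simpa [map_ofNat] using n2
  by_cases o : Odd (cp (e5 a))
  · exact k2 h ha hb o
  · refine k2 (h.addL s 1) (by rw [map_add, map_mul, ha, hb, mul_zero, add_zero]) hb ?_
    obtain ⟨x, y, e⟩ := (cop5 s h e5).map cp
    rw [one_mul, map_add, map_add]
    rw [Int.not_odd_iff_even] at o
    refine o.add_odd (Int.not_even_iff_odd.1 fun o2 => ?_)
    have := (o.mul_left x).add (o2.mul_left y)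
    rw [e] at this
    exact absurd this (by decide)

theorem sym1 (a b : R1) (w : W) (h : s.Sym a b w) : w = 0 :=
  zs_ind (fun x y => ∀ a b, e0 a = x → e0 b = y → s.Sym a b w → w = 0)
    (fun _ _ x H a b ha hb h => H _ _ (by rw [map_add, map_mul, e0_alg, ha, hb]) hb
      (h.addL s (algebraMap R0 R1 x)))
    (fun _ _ x H a b ha hb h => H _ _ ha (by rw [map_add, map_mul, e0_alg, ha, hb])
      (h.addR s (algebraMap R0 R1 x)))
    (fun _ _ ha hb h => symR s h ha hb) _ _ (cop5 s h e0) a b rfl rfl h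

theorem ker1 {n : Type} [Fintype n] [DecidableEq n] {B : Matrix n n R1} (hB : IsUnit B)
    (h : B.map e0 = 1) : s.c B = 0 := by
  rw [s.sk0' good1 (sym1 s.red) hB]
  have h1 : e0 B.det = 1 := by
    rw [RingHom.map_det, RingHom.mapMatrix_apply, h, Matrix.det_one]
  have h2 := ((Matrix.isUnit_iff_isUnit_det _).1 hB).map e5
  have h3 := Int.isUnit_iff.1 (h2.map cp)
  have h4 := Int.isUnit_iff.1 (h2.map cm)
  rw [e0_def] at h1
  simp only [e5_def, h1, map_add, map_mul, map_one, map_ofNat] at h3 h4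
  have h5 : B.det = 1 := by
    ext1
    · exact h1
    · exact ext0 (by rw [im_one, map_zero]; omega) (by rw [im_one, map_zero]; omega)
  rw [h5, ← s.one (n := Unit)]
  congr 1

end Pool.Agent.Lib.MP_2add11_gt.D5
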