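import Mathlib

/-!
Reduction of invertible matrices over a tiled order to diagonal form by transvections.
-/

namespace Pool.Agent.Lib.MP_2add11_gt.D5

open Matrix

variable {O I : Type} [CommRing O] [Fintype I] [DecidableEq I]

/-- Entries in the rows of colour `true` and the columns of colour `false` are multiples of `p`. -/
def Al (p : O) (col : I → Bool) (i k : I) (x : O) : Prop := col i = true → col k = false → p ∣ x

structure Red (p : O) (col : I → Bool) (P : Matrix I I O → Prop) : Prop where
  right : ∀ M k j x, k ≠ j → Al p col k j x → P (M * transvection k j x) → P M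
  left : ∀ M i j x, i ≠ j → Al p col i j x → P (transvection i j x * M) → P M

theorem isUnit_tv {i j : I} (h : i ≠ j) (x : O) : IsUnit (transvection i j x) := by
  rw [isUnit_iff_isUnit_det, det_transvection_of_ne i j h]
  exact isUnit_one

def Gd (p : O) (col : I → Bool) (S : Finset I) (M : Matrix I I O) : Prop :=
  IsUnit M ∧ (∀ i k, Al p col i k (M i k)) ∧ ∀ i ∉ S, ∀ k ≠ i, M i k = 0 ∧ M k i = 0

variable {p : O} {col : I → Bool} {S : Finset I} {M : Matrix I I O}

theorem Gd.right (h : Gd p col S M) {k j : I} (hk : k ∈ S) (hj : j ∈ S) (hkj : k ≠ j) {x : O}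
    (hx : Al p col k j x) : Gd p col S (M * transvection k j x) := by
  obtain ⟨h1, h2, h3⟩ := h
  refine ⟨h1.mul (isUnit_tv hkj x), fun a b ha hb => ?_, fun i hi l hl => ⟨?_, ?_⟩⟩
  · by_cases e : b = j
    · subst e
      rw [mul_transvection_apply_same]
      refine (h2 a b ha hb).add ?_
      cases hc : col k
      · exact (h2 a k ha hc).mul_left _
      · exact (hx hc hb).mul_right _
    · rw [mul_transvection_apply_of_ne _ _ _ _ e]
      exact h2 a b ha hb
  · by_cases e : l = j
    · subst e
      rw [mul_transvection_apply_same, (h3 i hi l hl).1,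
        (h3 i hi k fun e => hi (e ▸ hk)).1, mul_zero, add_zero]
    · rw [mul_transvection_apply_of_ne _ _ _ _ e, (h3 i hi l hl).1]
  · rw [mul_transvection_apply_of_ne _ _ _ _ fun e : i = j => hi (e ▸ hj), (h3 i hi l hl).2]

theorem Gd.left (h : Gd p col S M) {k j : I} (hk : k ∈ S) (hj : j ∈ S) (hkj : k ≠ j) {x : O}
    (hx : Al p col k j x) : Gd p col S (transvection k j x * M) := by
  obtain ⟨h1, h2, h3⟩ := h
  refine ⟨(isUnit_tv hkj x).mul h1, fun a b ha hb => ?_, fun i hi l hl => ⟨?_, ?_⟩⟩
  · by_cases e : a = k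
    · subst e
      rw [transvection_mul_apply_same]
      refine (h2 a b ha hb).add ?_
      cases hc : col j
      · exact (hx ha hc).mul_right _
      · exact (h2 j b hc hb).mul_left _
    · rw [transvection_mul_apply_of_ne _ _ _ _ e]
      exact h2 a b ha hb
  · rw [transvection_mul_apply_of_ne _ _ _ _ fun e : i = k => hi (e ▸ hk), (h3 i hi l hl).1]
  · by_cases e : l = k
    · subst e
      rw [transvection_mul_apply_same, (h3 i hi l hl).2,
        (h3 i hi j fun e => hi (e ▸ hj)).2, mul_zero, add_zero]
    · rw [transvection_mul_apply_of_ne _ _ _ _ e, (h3 i hi l hl).2]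

omit [Fintype I] in
theorem fin_up {R : Finset I → Prop} (T Z : Finset I)
    (h : ∀ k ∈ T, ∀ Y, Z ⊆ Y → Y ⊆ Z ∪ T → k ∉ Y → R (insert k Y) → R Y) (hR : R (Z ∪ T)) :
    R Z := by
  induction T using Finset.induction_on with
  | empty => simpa using hR
  | insert k T hk ih =>
    refine ih (fun l hl Y h1 h2 => h l (Finset.mem_insert_of_mem hl) Y h1
      (h2.trans (Finset.union_subset_union_right (Finset.subset_insert _ _)))) ?_
    rw [Finset.union_insert] at hR
    by_cases e : k ∈ Z ∪ T
    · rwa [Finset.insert_eq_of_mem e] at hR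
    · exact h k (Finset.mem_insert_self _ _) _ Finset.subset_union_left
        (Finset.union_subset_union_right (Finset.subset_insert _ _)) e hR

theorem row_one (hM : IsUnit M) (j : I) : ∃ y : I → O, ∑ l, M j l * y l = 1 := by
  obtain ⟨B, hB⟩ := hM.exists_right_inv
  exact ⟨fun l => B l j, by simpa [mul_apply] using congrFun (congrFun hB j) j⟩

theorem til_red {P : Matrix I I O → Prop} (hP : Red p col P) (hp : ¬ IsUnit p)
    (hE : ∀ Q : O → O → Prop, (∀ a b x, Q (a + x * b) b → Q a b) →
      (∀ a b x, Q a (b + x * a) → Q a b) → (∀ a, Q a 0) → ∀ a b, Q a b)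
    (hF : ∀ Q : O → O → Prop, (∀ a b x, Q (a + x * b) b → Q a b) →
      (∀ a b x, Q a (b + p * x * a) → Q a b) → (∀ a, Q a 0) → ∀ a b, ¬ p ∣ a → p ∣ b → Q a b)
    (hD : ∀ d : I → O, (∀ i, IsUnit (d i)) → P (diagonal d)) (S : Finset I) :
    ∀ M, Gd p col S M → P M := by
  induction S using Finset.strongInduction with
  | H S ih =>
  rcases S.eq_empty_or_nonempty with rfl | hS
  · intro M hM
    have e : M = diagonal fun i => M i i := by
      ext i k
      by_cases h : i = k
      · rw [h, diagonal_apply_eq]
      · rw [diagonal_apply_ne _ h, (hM.2.2 i (by simp) k (Ne.symm h)).1]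
    have hu := hM.1
    rw [e] at hu ⊢
    exact hD _ (Pi.isUnit_iff.1 (isUnit_diagonal.1 hu))
  obtain ⟨j, hj, hc⟩ : ∃ j ∈ S, col j = false → ∀ k ∈ S, col k = false := by
    by_cases h : ∃ j ∈ S, col j = true
    · obtain ⟨j, h1, h2⟩ := h
      exact ⟨j, h1, fun h3 => by simp [h2] at h3⟩
    · obtain ⟨j, h1⟩ := hS
      exact ⟨j, h1, fun _ k hk => by simpa using fun h2 => h ⟨k, hk, h2⟩⟩
  have c3 : ∀ M, Gd p col S M → (∀ l ∈ S.erase j, M j l = 0) → P M := by
    have := fin_up (R := fun Z => ∀ M, Gd p col S M → (∀ l ∈ S.erase j, M j l = 0) →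
      (∀ l ∈ Z, M l j = 0) → P M) (S.erase j) ∅ (fun k hk Y _ _ hY H M hM h1 h2 => ?_)
      (fun M hM h1 h2 => ?_)
    · exact fun M hM h1 => this M hM h1 (by simp)
    · obtain ⟨hkj, hk⟩ := Finset.mem_erase.1 hk
      obtain ⟨y, hy⟩ := row_one hM.1 j
      rw [Finset.sum_eq_single j (fun l _ hl => by
        by_cases e : l ∈ S
        · rw [h1 l (Finset.mem_erase.2 ⟨hl, e⟩), zero_mul]
        · rw [(hM.2.2 l e j hl.symm).2, zero_mul]) (by simp)] at hy
      have hx : Al p col k j (-(M k j * y j)) := fun a b => ((hM.2.1 k j a b).mul_right _).neg_right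
      refine hP.left M k j _ hkj hx (H _ (hM.left hk hj hkj hx) (fun l hl => ?_) fun l hl => ?_)
      · rw [transvection_mul_apply_of_ne _ _ _ _ hkj.symm, h1 l hl]
      · rcases Finset.mem_insert.1 hl with rfl | hl
        · rw [transvection_mul_apply_same]
          linear_combination -M l j * hy
        · rw [transvection_mul_apply_of_ne _ _ _ _ fun e : l = k => hY (e ▸ hl), h2 l hl]
    · refine ih (S.erase j) (Finset.erase_ssubset hj) M ⟨hM.1, hM.2.1, fun i hi k hk => ?_⟩
      by_cases e : i = j
      · subst e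
        by_cases e : k ∈ S
        · exact ⟨h1 k (Finset.mem_erase.2 ⟨hk, e⟩), h2 k (by simp [hk, e])⟩
        · exact (hM.2.2 k e i hk.symm).symm
      · exact hM.2.2 i (fun h => hi (Finset.mem_erase.2 ⟨e, h⟩)) k hk
  let R : Finset I → Prop := fun Z => ∀ M, Gd p col S M → (∀ l ∈ Z, M j l = 0) → P M
  let S1 := (S.erase j).filter fun k => col k = col j
  have step : ∀ k ∈ S.erase j, ∀ Y, Y ⊆ S.erase j → k ∉ Y → (col k = col j ∨ S1 ⊆ Y) →
      R (insert k Y) → R Y := fun k hk Y hY hkY hcs H M hM hZ => by
    obtain ⟨hkj, hk⟩ := Finset.mem_erase.1 hk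
    have hjY : ∀ l ∈ Y, l ≠ j := fun l hl => (Finset.mem_erase.1 (hY hl)).1
    let Q : O → O → Prop := fun a b => ∀ M, Gd p col S M → (∀ l ∈ Y, M j l = 0) →
      M j j = a → M j k = b → P M
    have q1 : ∀ a b x, Al p col k j x → Q (a + x * b) b → Q a b :=
      fun a b x hx h M hM hZ ha hb => hP.right M k j x hkj hx (h _ (hM.right hk hj hkj hx)
        (fun l hl => by rw [mul_transvection_apply_of_ne _ _ _ _ (hjY l hl), hZ l hl])
        (by rw [mul_transvection_apply_same, ha, hb])
        (by rw [mul_transvection_apply_of_ne _ _ _ _ hkj, hb]))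
    have q2 : ∀ a b x, Al p col j k x → Q a (b + x * a) → Q a b :=
      fun a b x hx h M hM hZ ha hb => hP.right M j k x hkj.symm hx
        (h _ (hM.right hj hk hkj.symm hx)
        (fun l hl => by
          rw [mul_transvection_apply_of_ne _ _ _ _ fun e : l = k => hkY (e ▸ hl), hZ l hl])
        (by rw [mul_transvection_apply_of_ne _ _ _ _ hkj.symm, ha])
        (by rw [mul_transvection_apply_same, ha, hb]))
    have q3 : ∀ a, Q a 0 := fun a M hM hZ _ hb => H M hM fun l hl => by
      rcases Finset.mem_insert.1 hl with rfl | hl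
      exacts [hb, hZ l hl]
    by_cases e : col k = col j
    · exact hE Q (fun a b x => q1 a b x fun h1 h2 => by simp [← e, h1] at h2)
        (fun a b x => q2 a b x fun h1 h2 => by simp [e, h1] at h2) q3 _ _ M hM hZ rfl rfl
    · have e1 : col j = true := by
        by_contra h
        rw [Bool.not_eq_true] at h
        exact e ((hc h k hk).trans h.symm)
      have e2 : col k = false := by simpa [e1] using e
      refine hF Q (fun a b x => q1 a b x fun h1 _ => by simp [e2] at h1)
        (fun a b x => q2 a b (p * x) fun _ _ => dvd_mul_right _ _) q3 _ _ (fun hd => hp ?_)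
        (hM.2.1 j k e1 e2) M hM hZ rfl rfl
      obtain ⟨y, hy⟩ := row_one hM.1 j
      refine isUnit_of_dvd_one (hy ▸ Finset.dvd_sum fun l _ => Dvd.dvd.mul_right ?_ _)
      by_cases h1 : l = j
      · rwa [h1]
      cases h2 : col l
      · exact hM.2.1 j l e1 h2
      by_cases h3 : l ∈ S
      · rw [hZ l (hcs.resolve_left e (by simp [S1, h1, h3, h2, e1]))]
        exact dvd_zero _
      · rw [(hM.2.2 l h3 j (Ne.symm h1)).2]
        exact dvd_zero _
  have s1 : S1 ⊆ S.erase j := Finset.filter_subset _ _
  have r1 : R S1 := fin_up (S.erase j) S1 (fun k hk Y h1 h2 h3 =>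
    step k hk Y (h2.trans (Finset.union_subset s1 subset_rfl)) h3 (.inr h1))
    fun M hM h => c3 M hM fun l hl => h l (Finset.mem_union_right _ hl)
  have r0 : R ∅ := fin_up S1 ∅ (fun k hk Y _ h2 h3 =>
    step k (s1 hk) Y (h2.trans (Finset.union_subset (Finset.empty_subset _) s1)) h3
      (.inl (Finset.mem_filter.1 hk).2)) (by simpa using r1)
  exact fun M hM => r0 M hM (by simp)

theorem whitehead {i k : I} (h : i ≠ k) (d : I → O) {u v : O} (huv : u * v = 1) :
    diagonal d * transvection k i (u - 1) * transvection i k 1 * transvection k i (v - 1) *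
      transvection i k (-u) =
      diagonal fun l => if l = i then d l * v else if l = k then d l * u else d l := by
  ext a b
  by_cases hb : b = k
  · subst hb
    simp only [mul_transvection_apply_same, mul_transvection_apply_of_ne _ _ _ _ h,
      mul_transvection_apply_of_ne _ _ _ _ h.symm, diagonal_apply]
    by_cases h1 : a = i
    · subst h1
      simp only [if_true, if_neg h]
      linear_combination -d a * huv
    · by_cases h2 : a = b
      · subst h2
        simp only [if_true, if_neg h1]
        linear_combination -u * d a * huv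
      · simp [h1, h2]
  by_cases hi : b = i
  · subst hi
    simp only [mul_transvection_apply_same, mul_transvection_apply_of_ne _ _ _ _ h,
      mul_transvection_apply_of_ne _ _ _ _ h.symm, diagonal_apply]
    by_cases h1 : a = b
    · subst h1
      simp only [if_true, if_neg h]
      ring
    · by_cases h2 : a = k
      · subst h2
        simp only [if_true, if_neg h1]
        linear_combination d a * huv
      · simp [h1, h2]
  · simp only [mul_transvection_apply_of_ne _ _ _ _ hb, mul_transvection_apply_of_ne _ _ _ _ hi,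
      diagonal_apply]
    by_cases h1 : a = b
    · subst h1
      simp [hb, hi]
    · simp [h1]

theorem collect {P : Matrix I I O → Prop} (hP : Red p col P) {i0 i1 : I} (h0 : col i0 = true)
    (h1 : col i1 = false) (hD : ∀ d : I → O, (∀ i, IsUnit (d i)) →
      (∀ i, i ≠ i0 → i ≠ i1 → d i = 1) → P (diagonal d)) (d : I → O) (hd : ∀ i, IsUnit (d i)) :
    P (diagonal d) := by
  have key : ∀ (S : Finset I) (d : I → O), (∀ i, IsUnit (d i)) →
      (∀ i ∉ S, i ≠ i0 → i ≠ i1 → d i = 1) → P (diagonal d) := fun S => by
    induction S using Finset.induction_on with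
    | empty => exact fun d hd h => hD d hd fun i => h i (by simp)
    | insert i S hi ih =>
      intro d hd h
      obtain ⟨k, hk, hc⟩ : ∃ k, (k = i0 ∨ k = i1) ∧ col k = col i := by
        cases e : col i
        exacts [⟨i1, .inr rfl, h1⟩, ⟨i0, .inl rfl, h0⟩]
      by_cases e : i = k
      · refine ih d hd fun l hl a b => h l (fun h2 => ?_) a b
        rcases Finset.mem_insert.1 h2 with rfl | h2
        · rcases hk with rfl | rfl
          exacts [a e, b e]
        · exact hl h2
      obtain ⟨v, hv⟩ := (hd i).exists_right_inv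
      have a1 : ∀ x, Al p col k i x := fun x a b => by simp [← hc, a] at b
      have a2 : ∀ x, Al p col i k x := fun x a b => by simp [hc, a] at b
      refine hP.right _ k i (d i - 1) (Ne.symm e) (a1 _) (hP.right _ i k 1 e (a2 _)
        (hP.right _ k i (v - 1) (Ne.symm e) (a1 _) (hP.right _ i k (-d i) e (a2 _) ?_)))
      rw [whitehead e d hv]
      refine ih _ (fun l => ?_) fun l hl a b => ?_
      · split_ifs
        exacts [(hd l).mul (IsUnit.of_mul_eq_one_right _ hv), (hd l).mul (hd i), hd l]
      · by_cases e1 : l = i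
        · simp [e1, hv]
        · have e2 : l ≠ k := by
            rcases hk with rfl | rfl
            exacts [a, b]
          simp only [if_neg e1, if_neg e2]
          exact h l (by simp [e1, hl]) a b
  exact key Finset.univ d hd (by simp)

end Pool.Agent.Lib.MP_2add11_gt.D5
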