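import Pool.Agent.Lib.MP_2add11_gt.D5.Ker
import Pool.Agent.Lib.MP_2add11_gt.D5.Til

/-!
The two-dimensional representation of the dihedral group of order ten over `ℤ[ω]`.
-/

noncomputable section

namespace Pool.Agent.Lib.MP_2add11_gt.D5

open QuadraticAlgebra FG DihedralGroup Matrix

abbrev D : Type := DihedralGroup 5

abbrev ZD : Type := MonoidAlgebra ℤ D

def rT : Fin 5 → Matrix (Fin 2) (Fin 2) O :=
  ![!![⟨1, 0⟩, ⟨0, 0⟩; ⟨0, 0⟩, ⟨1, 0⟩], !![⟨1, 0⟩, ⟨2, -1⟩; ⟨-1, 0⟩, ⟨-1, 1⟩],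
    !![⟨-1, 1⟩, ⟨-1, 3⟩; ⟨0, -1⟩, ⟨0, -2⟩], !![⟨0, -2⟩, ⟨1, -3⟩; ⟨0, 1⟩, ⟨-1, 1⟩],
    !![⟨-1, 1⟩, ⟨-2, 1⟩; ⟨1, 0⟩, ⟨1, 0⟩]]

def sT : Fin 5 → Matrix (Fin 2) (Fin 2) O :=
  ![!![⟨1, 0⟩, ⟨2, -1⟩; ⟨0, 0⟩, ⟨-1, 0⟩], !![⟨-1, 1⟩, ⟨-1, 3⟩; ⟨1, 0⟩, ⟨1, -1⟩],
    !![⟨0, -2⟩, ⟨1, -3⟩; ⟨0, 1⟩, ⟨0, 2⟩], !![⟨-1, 1⟩, ⟨-2, 1⟩; ⟨0, -1⟩, ⟨1, -1⟩],
    !![⟨1, 0⟩, ⟨0, 0⟩; ⟨-1, 0⟩, ⟨-1, 0⟩]]

def rF : D → Matrix (Fin 2) (Fin 2) O
  | r i => rT i
  | sr i => sT i

def rho0 : D →* Matrix (Fin 2) (Fin 2) O where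
  toFun := rF
  map_one' := by decide +kernel
  map_mul' := by decide +kernel

def rho : ZD →+* Matrix (Fin 2) (Fin 2) O := (MonoidAlgebra.lift ℤ _ D rho0).toRingHom

theorem rho_single (g : D) (a : ℤ) : rho (.single g a) = a • rF g := by
  simp [rho, rho0]

theorem sumD {M : Type} [AddCommMonoid M] (f : D → M) : ∑ g, f g =
    f (r 0) + f (r 1) + f (r 2) + f (r 3) + f (r 4) +
      (f (sr 0) + f (sr 1) + f (sr 2) + f (sr 3) + f (sr 4)) := by
  rw [← equivSum.symm.sum_comp, Fintype.sum_sum_type]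
  exact congrArg₂ (· + ·) (Fin.sum_univ_five _) (Fin.sum_univ_five _)

theorem eq_sum (x : ZD) : x = ∑ g, .single g (x.coeff g) := by
  ext g
  simp

def cf (a b : Fin 5 → ℤ) : D → ℤ
  | r i => a i
  | sr i => b i

theorem rho_cf {M : Matrix (Fin 2) (Fin 2) O} (a b : Fin 5 → ℤ) (h : ∑ g, cf a b g • rF g = M) :
    M ∈ rho.toAddMonoidHom.range :=
  ⟨∑ g, .single g (cf a b g), by simpa [rho_single] using h⟩

theorem pp_dvd {x : O} : pp ∣ x ↔ 5 ∣ x.re + 2 * x.im := by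
  constructor
  · rintro ⟨c, rfl⟩
    exact ⟨c.im, by simp [pp]; ring⟩
  · rintro ⟨d, h⟩
    exact ⟨⟨3 * d - x.im, d⟩, by ext <;> simp [pp] <;> omega⟩

theorem rho_onto (a b : Fin 2) (x : O) (h : a = 0 → b = 1 → pp ∣ x) :
    ∃ y, rho y = single a b x := by
  have key : ∀ (a b : Fin 2) (c : O), single a b c ∈ rho.toAddMonoidHom.range →
      single a b (c * ⟨0, 1⟩) ∈ rho.toAddMonoidHom.range → ∀ x : O,
      single a b (c * x) ∈ rho.toAddMonoidHom.range := fun a b c h1 h2 x => by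
    have := add_mem (zsmul_mem h1 x.re) (zsmul_mem h2 x.im)
    rwa [smul_single, smul_single, ← single_add, show x.re • c + x.im • (c * ⟨0, 1⟩) = c * x by
      ext <;> simp <;> ring] at this
  fin_cases a <;> fin_cases b
  · exact one_mul x ▸ key 0 0 1 (rho_cf ![0, -1, 0, -1, 0] ![0, -1, 0, -1, 0] (by decide +kernel))
      (rho_cf ![0, 1, -1, 1, 0] ![0, 1, -1, 1, 0] (by decide +kernel)) x
  · obtain ⟨x, rfl⟩ := h rfl rfl
    exact key 0 1 pp (rho_cf ![1, 2, 0, 2, 0] ![1, 2, 0, 2, 0] (by decide +kernel))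
      (rho_cf ![-1, -2, 1, -3, 0] ![-1, -2, 1, -3, 0] (by decide +kernel)) x
  · exact one_mul x ▸ key 1 0 1 (rho_cf ![-1, -2, 0, -2, 0] ![1, -1, 1, -1, 0] (by decide +kernel))
      (rho_cf ![1, 2, -1, 3, 0] ![-1, 2, -2, 1, 0] (by decide +kernel)) x
  · exact one_mul x ▸ key 1 1 1 (rho_cf ![1, 1, 0, 1, 0] ![0, 1, 0, 1, 0] (by decide +kernel))
      (rho_cf ![-1, -1, 0, -2, 0] ![0, -1, 1, -1, 0] (by decide +kernel)) x

theorem rho_til (x : ZD) : pp ∣ rho x 0 1 := by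
  have : ∀ g, 5 ∣ (rF g 0 1).re + 2 * (rF g 0 1).im := by decide +kernel
  rw [eq_sum x, map_sum, Matrix.sum_apply]
  refine Finset.dvd_sum fun g _ => ?_
  rw [rho_single, Matrix.smul_apply, zsmul_eq_mul]
  exact (pp_dvd.2 (this g)).mul_left _

def ph : O →+* ZMod 5 where
  toFun x := (x.re + 2 * x.im : ℤ)
  map_one' := by decide
  map_mul' x y := by
    simp only [re_mul, im_mul]
    push_cast
    linear_combination (-(x.im : ZMod 5) * y.im) * (by decide : (5 : ZMod 5) = 0)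
  map_zero' := by decide
  map_add' x y := by simp; ring

theorem ph_zero {x : O} (h : ph x = 0) : pp ∣ x :=
  pp_dvd.2 (by exact_mod_cast (ZMod.intCast_zmod_eq_zero_iff_dvd _ 5).1 h)

def sgF (a : Fin 2) : D → ℤ
  | r _ => 1
  | sr _ => if a = 0 then 1 else -1

def sg0 (a : Fin 2) : D →* ℤ where
  toFun := sgF a
  map_one' := rfl
  map_mul' := by revert a; decide +kernel

def ep (a : Fin 2) : ZD →+* ℤ := (MonoidAlgebra.lift ℤ _ D (sg0 a)).toRingHom

theorem ph_rho (a : Fin 2) (x : ZD) : ph (rho x a a) = ep a x := by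
  have : ∀ (a : Fin 2) g, ph (rF g a a) = sgF a g := by decide +kernel
  induction x using MonoidAlgebra.induction_linear with
  | zero => simp
  | add x y hx hy => simp [hx, hy]
  | single g c =>
    have h : ep a (.single g c) = c * sgF a g := by
      simp only [ep, AlgHom.toRingHom_eq_coe, RingHom.coe_coe, MonoidAlgebra.lift_single]
      rfl
    simp [rho_single, this, h]

def ss : ZD := .single (sr 0) 1

def nn : ZD :=
  .single (r 0) 1 + .single (r 1) 1 + .single (r 2) 1 + .single (r 3) 1 + .single (r 4) 1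

def mm : ZD :=
  .single (sr 0) 1 + .single (sr 1) 1 + .single (sr 2) 1 + .single (sr 3) 1 + .single (sr 4) 1

theorem tab : ss * ss = 1 ∧ ss * nn = mm ∧ nn * ss = mm ∧ nn * nn = (5 : ℤ) • nn := by
  refine ⟨?_, ?_, ?_, ?_⟩ <;> ext g <;>
    simp only [ss, nn, mm, mul_add, add_mul, MonoidAlgebra.single_mul_single, smul_add,
      MonoidAlgebra.smul_single, MonoidAlgebra.one_def, MonoidAlgebra.coeff_add,
      MonoidAlgebra.coeff_single, Finsupp.coe_add, Pi.add_apply, Finsupp.single_apply] <;>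
    revert g <;> decide +kernel

def f1 : R1 →+* ZD where
  toFun z := z.re.re • 1 + z.re.im • ss + z.im.re • nn + z.im.im • mm
  map_one' := by simp [re_one, im_one]
  map_mul' x y := by
    obtain ⟨h1, h2, h3, h4⟩ := tab
    have h5 : ss * mm = nn := by rw [← h2, ← mul_assoc, h1, one_mul]
    have h6 : mm * ss = nn := by rw [← h3, mul_assoc, h1, mul_one]
    have h7 : nn * mm = (5 : ℤ) • mm := by rw [← h3, ← mul_assoc, h4, smul_mul_assoc]
    have h8 : mm * nn = (5 : ℤ) • mm := by rw [← h2, mul_assoc, h4, mul_smul_comm]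
    have h9 : mm * mm = (5 : ℤ) • nn := by
      nth_rw 1 [← h2]
      rw [mul_assoc, h7, mul_smul_comm, h5]
    simp only [re_mul, im_mul, re_add, im_add, re_zero, im_zero, re_ofNat, im_ofNat, mul_add, add_mul,
      smul_mul_assoc, mul_smul_comm, one_mul, mul_one, h1, h2, h3, h4, h5, h6, h7, h8, h9]
    module
  map_zero' := by simp
  map_add' x y := by
    simp only [re_add, im_add]
    module

theorem f1_coeff (z : R1) (g : D) : (f1 z).coeff g =
    cf ![z.re.re + z.im.re, z.im.re, z.im.re, z.im.re, z.im.re]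
      ![z.re.im + z.im.im, z.im.im, z.im.im, z.im.im, z.im.im] g := by
  have : g = r 0 ∨ g = r 1 ∨ g = r 2 ∨ g = r 3 ∨ g = r 4 ∨
      g = sr 0 ∨ g = sr 1 ∨ g = sr 2 ∨ g = sr 3 ∨ g = sr 4 := by revert g; decide
  change (z.re.re • 1 + z.re.im • ss + z.im.re • nn + z.im.im • mm : ZD).coeff g = _
  simp only [ss, nn, mm, smul_add, MonoidAlgebra.smul_single, MonoidAlgebra.one_def,
    MonoidAlgebra.coeff_add, MonoidAlgebra.coeff_single, Finsupp.coe_add, Pi.add_apply,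
    Finsupp.single_apply, smul_eq_mul, mul_one]
  rcases this with rfl | rfl | rfl | rfl | rfl | rfl | rfl | rfl | rfl | rfl <;>
    simp +decide only [if_true, if_false, add_zero, zero_add] <;> rfl

theorem f1_inj : Function.Injective f1 := fun x y h => by
  have a1 : x.re.re + x.im.re = y.re.re + y.im.re :=
    (f1_coeff x (r 0)).symm.trans (h ▸ f1_coeff y (r 0))
  have a2 : x.im.re = y.im.re := (f1_coeff x (r 1)).symm.trans (h ▸ f1_coeff y (r 1))
  have a3 : x.re.im + x.im.im = y.re.im + y.im.im :=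
    (f1_coeff x (sr 0)).symm.trans (h ▸ f1_coeff y (sr 0))
  have a4 : x.im.im = y.im.im := (f1_coeff x (sr 1)).symm.trans (h ▸ f1_coeff y (sr 1))
  ext <;> omega

theorem rho_ker {x : ZD} (h : rho x = 0) : ∃ z : R1, e0 z = 0 ∧ f1 z = x := by
  rw [eq_sum x, map_sum, sumD] at h
  simp only [rho_single] at h
  have e : ∀ i j, ((_ : Matrix (Fin 2) (Fin 2) O) i j).re = 0 ∧ (_ : O).im = 0 := fun i j =>
    ⟨congrArg re (congrFun (congrFun h i) j), congrArg im (congrFun (congrFun h i) j)⟩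
  have e1 := e 0 0
  have e2 := e 0 1
  have e3 := e 1 0
  have e4 := e 1 1
  simp only [Matrix.add_apply, Matrix.smul_apply, re_add, im_add, re_smul, im_smul, smul_eq_mul,
    show rF (r 0) = rT 0 from rfl, show rF (r 1) = rT 1 from rfl, show rF (r 2) = rT 2 from rfl,
    show rF (r 3) = rT 3 from rfl, show rF (r 4) = rT 4 from rfl, show rF (sr 0) = sT 0 from rfl,
    show rF (sr 1) = sT 1 from rfl, show rF (sr 2) = sT 2 from rfl, show rF (sr 3) = sT 3 from rfl,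
    show rF (sr 4) = sT 4 from rfl] at e1 e2 e3 e4
  simp [rT, sT] at e1 e2 e3 e4
  refine ⟨⟨0, ⟨x.coeff 1, x.coeff (sr 0)⟩⟩, rfl, ?_⟩
  ext g
  rw [f1_coeff]
  have : g = r 0 ∨ g = r 1 ∨ g = r 2 ∨ g = r 3 ∨ g = r 4 ∨
      g = sr 0 ∨ g = sr 1 ∨ g = sr 2 ∨ g = sr 3 ∨ g = sr 4 := by revert g; decide
  rcases this with rfl | rfl | rfl | rfl | rfl | rfl | rfl | rfl | rfl | rfl
  · exact zero_add _
  iterate 4 (change x.coeff 1 = _; omega)
  · exact zero_add _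
  iterate 4 (change x.coeff (sr 0) = _; omega)

end Pool.Agent.Lib.MP_2add11_gt.D5
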