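import Pool.Agent.Lib.MP_2add11_gt.FG.Words
import Pool.Agent.Lib.MP_2add11_gt.D5.Deg

/-!
The sign of the determinant of a Fox Jacobian in a representation by quaternion conjugation.
-/

noncomputable section

namespace Pool.Agent.Lib.MP_2add11_gt.D5

open Set Metric Matrix FG
open scoped ContDiff Quaternion

namespace RT

/-- Value of a word. -/
def evL {α : Type} (a : α → ℍ[ℝ]) (L : List (α × Bool)) : ℍ[ℝ] :=
  (L.map fun x => cond x.2 (a x.1) (a x.1)⁻¹).prod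

theorem evL_nil {α : Type} (a : α → ℍ[ℝ]) : evL a [] = 1 := rfl

theorem evL_cons {α : Type} (a : α → ℍ[ℝ]) (x : α × Bool) (L : List (α × Bool)) :
    evL a (x :: L) = cond x.2 (a x.1) (a x.1)⁻¹ * evL a L := by
  simp [evL]

theorem evL_units {α : Type} (γ : α → ℍ[ℝ]ˣ) (L : List (α × Bool)) :
    evL (fun x => (γ x : ℍ[ℝ])) L = (FreeGroup.lift γ (FreeGroup.mk L) : ℍ[ℝ]ˣ) := by
  rw [FreeGroup.lift_mk]
  induction L with
  | nil => rfl
  | cons x L ih =>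
    rw [evL_cons, ih, List.map_cons, List.prod_cons, Units.val_mul]
    rcases x with ⟨x, _ | _⟩ <;> simp

theorem evL_one {α : Type} (L : List (α × Bool)) : evL (fun _ => 1) L = 1 := by
  induction L with
  | nil => rfl
  | cons x L ih =>
    rw [evL_cons, ih]
    rcases x with ⟨x, _ | _⟩ <;> simp

theorem cd_inv {x : ℍ[ℝ]} (hx : x ≠ 0) : ContDiffAt ℝ ∞ (Inv.inv : ℍ[ℝ] → ℍ[ℝ]) x := by
  simpa only [Ring.inverse_eq_inv'] using! contDiffAt_ringInverse ℝ (Units.mk0 x hx)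

theorem cd_evL {α X : Type} [NormedAddCommGroup X] [NormedSpace ℝ X] (A : X → α → ℍ[ℝ]) {z : X}
    (h : ∀ x, ContDiffAt ℝ ∞ (fun y => A y x) z) (h0 : ∀ x, A z x ≠ 0) (L : List (α × Bool)) :
    ContDiffAt ℝ ∞ (fun y => evL (A y) L) z := by
  induction L with
  | nil => exact contDiffAt_const
  | cons x L ih =>
    simp only [evL_cons]
    refine ContDiffAt.mul ?_ ih
    rcases x with ⟨x, _ | _⟩
    · exact (cd_inv (h0 x)).comp z (h x)
    · exact h x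

variable {G ι : Type} [Group G] [Fintype ι] [DecidableEq ι]

omit [Fintype ι] in
theorem fox_nil (j : ι) : FG.fox j (FreeGroup.mk ([] : List ((G × ι) × Bool))) = 0 := by
  simp [FG.fox, FreeGroup.lift_mk]

omit [Fintype ι] in
theorem fox_cons (j : ι) (x : G × ι) (b : Bool) (L : List ((G × ι) × Bool)) :
    FG.fox j (FreeGroup.mk ((x, b) :: L)) = (cond b 1 (-1) : ℤ) •
      (if x.2 = j then MonoidAlgebra.single x.1 (1 : ℤ) else 0) + FG.fox j (FreeGroup.mk L) := by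
  cases b <;> by_cases h : x.2 = j <;> simp [FG.fox, FreeGroup.lift_mk, h]

/-- Coordinates. -/
def T4 : ℍ[ℝ] ≃ₗ[ℝ] Fin 4 → ℝ := QuaternionAlgebra.linearEquivTuple (-1) 0 (-1)

theorem T4_apply (y : ℍ[ℝ]) : T4 y = ![y.re, y.imI, y.imJ, y.imK] := rfl

theorem log_evL (q : G → ℍ[ℝ]) (hq : ∀ g, q g ≠ 0) (y : ι → ℍ[ℝ]) (hy : ∀ j, y j ≠ 0)
    (L : List ((G × ι) × Bool)) :
    evL (fun x : G × ι => q x.1 * y x.2 * (q x.1)⁻¹) L ≠ 0 ∧
    Real.log ‖evL (fun x : G × ι => q x.1 * y x.2 * (q x.1)⁻¹) L‖ =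
      ∑ j, MonoidAlgebra.lift ℤ ℝ G 1 (FG.fox j (FreeGroup.mk L)) * Real.log ‖y j‖ := by
  induction L with
  | nil => simp [evL_nil, fox_nil]
  | cons x L ih =>
    obtain ⟨x, b⟩ := x
    have h1 : ‖q x.1 * y x.2 * (q x.1)⁻¹‖ = ‖y x.2‖ := by
      have := norm_ne_zero_iff.2 (hq x.1)
      rw [norm_mul, norm_mul, norm_inv]
      field_simp
    have h2 : q x.1 * y x.2 * (q x.1)⁻¹ ≠ 0 := by
      rw [← norm_ne_zero_iff, h1]
      exact norm_ne_zero_iff.2 (hy _)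
    have h3 : cond b (q x.1 * y x.2 * (q x.1)⁻¹) (q x.1 * y x.2 * (q x.1)⁻¹)⁻¹ ≠ 0 := by
      cases b
      · exact inv_ne_zero h2
      · exact h2
    rw [evL_cons]
    refine ⟨mul_ne_zero h3 ih.1, ?_⟩
    rw [norm_mul, Real.log_mul (norm_ne_zero_iff.2 h3) (norm_ne_zero_iff.2 ih.1), ih.2]
    simp only [fox_cons, map_add, add_mul, Finset.sum_add_distrib]
    congr 1
    rw [Finset.sum_eq_single x.2 (fun j _ hj => by simp [Ne.symm hj]) (by simp)]
    cases b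
    · simp only [cond_false, norm_inv, h1, Real.log_inv]
      simp
    · simp only [cond_true, h1]
      simp

theorem fd_evL (q : G → ℍ[ℝ]) (hq : ∀ g, q g ≠ 0) (ρ : G →* Matrix (Fin 4) (Fin 4) ℝ)
    (hρ : ∀ g y, ρ g *ᵥ T4 y = T4 (q g * y * (q g)⁻¹)) (L : List ((G × ι) × Bool)) :
    ∃ D : (ι → ℍ[ℝ]) →L[ℝ] ℍ[ℝ],
      HasFDerivAt (fun y : ι → ℍ[ℝ] => evL (fun x : G × ι => q x.1 * y x.2 * (q x.1)⁻¹) L) D 1 ∧
      ∀ v, T4 (D v) = ∑ j, MonoidAlgebra.lift ℤ (Matrix (Fin 4) (Fin 4) ℝ) G ρ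
        (FG.fox j (FreeGroup.mk L)) *ᵥ T4 (v j) := by
  have e1 : (fun x : G × ι => q x.1 * (1 : ι → ℍ[ℝ]) x.2 * (q x.1)⁻¹) = fun _ => 1 := by
    funext x
    simp [hq x.1]
  induction L with
  | nil => exact ⟨0, hasFDerivAt_const (1 : ℍ[ℝ]) _, fun v => by simp [fox_nil]⟩
  | cons x L ih =>
    obtain ⟨x, b⟩ := x
    obtain ⟨D, h1, h2⟩ := ih
    let C : (ι → ℍ[ℝ]) →L[ℝ] ℍ[ℝ] :=
      (ContinuousLinearMap.mulLeftRight ℝ ℍ[ℝ] (q x.1) (q x.1)⁻¹).comp (ContinuousLinearMap.proj x.2)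
    have h3 : HasFDerivAt (fun y : ι → ℍ[ℝ] => q x.1 * y x.2 * (q x.1)⁻¹) C 1 := C.hasFDerivAt
    have h4 : q x.1 * (1 : ι → ℍ[ℝ]) x.2 * (q x.1)⁻¹ = 1 := congrFun e1 x
    have h5 : HasFDerivAt (fun y : ι → ℍ[ℝ] => cond b (q x.1 * y x.2 * (q x.1)⁻¹)
        (q x.1 * y x.2 * (q x.1)⁻¹)⁻¹) ((cond b 1 (-1) : ℝ) • C) 1 := by
      cases b
      · have h6 := (hasFDerivAt_inv' (𝕜 := ℝ) (h4 ▸ (one_ne_zero : (1 : ℍ[ℝ]) ≠ 0))).comp
          (1 : ι → ℍ[ℝ]) h3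
        refine h6.congr_fderiv ?_
        ext1 v
        simp [hq x.1]
      · exact h3.congr_fderiv (one_smul ℝ C).symm
    have h7 := h5.mul' h1
    have h8 : cond b (q x.1 * (1 : ι → ℍ[ℝ]) x.2 * (q x.1)⁻¹)
        (q x.1 * (1 : ι → ℍ[ℝ]) x.2 * (q x.1)⁻¹)⁻¹ = 1 := by
      rw [h4]; cases b <;> simp
    simp only [e1, evL_one, h8] at h7
    refine ⟨D + (cond b 1 (-1) : ℝ) • C, ?_, fun v => ?_⟩
    · simp only [evL_cons]
      refine (h7.congr_fderiv ?_)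
      ext1 v
      simp
    · simp only [fox_cons, map_add, add_mulVec, Finset.sum_add_distrib, ← h2,
        _root_.add_apply, _root_.smul_apply, map_smul]
      rw [add_comm]
      congr 1
      rw [Finset.sum_eq_single x.2 (fun j _ hj => by simp [Ne.symm hj]) (by simp)]
      have h9 : T4 (C v) = ρ x.1 *ᵥ T4 (v x.2) := (hρ _ _).symm
      rw [h9]
      cases b <;> simp [neg_mulVec]

/-- Coordinates on tuples. -/
def TT (ι : Type) : (ι → ℍ[ℝ]) ≃ₗ[ℝ] (ι × Fin 4 → ℝ) where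
  toFun y p := T4 (y p.1) p.2
  invFun z j := T4.symm fun k => z (j, k)
  map_add' y z := by funext p; simp
  map_smul' c y := by funext p; simp
  left_inv y := by funext j; simp
  right_inv z := by funext p; simp

theorem det_evL (q : G → ℍ[ℝ]) (hq : ∀ g, q g ≠ 0) (ρ : G →* Matrix (Fin 4) (Fin 4) ℝ)
    (hρ : ∀ g y, ρ g *ᵥ T4 y = T4 (q g * y * (q g)⁻¹)) (L : ι → List ((G × ι) × Bool)) :
    (fderiv ℝ (fun (y : ι → ℍ[ℝ]) i =>
      evL (fun x : G × ι => q x.1 * y x.2 * (q x.1)⁻¹) (L i)) 1).det =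
    (comp ι ι (Fin 4) (Fin 4) ℝ ((jac fun i => FreeGroup.mk (L i)).map
      (MonoidAlgebra.lift ℤ (Matrix (Fin 4) (Fin 4) ℝ) G ρ).toRingHom)).det := by
  choose D h1 h2 using fun i => fd_evL q hq ρ hρ (L i)
  rw [(hasFDerivAt_pi.2 h1).fderiv, ← LinearMap.det_toLin', ContinuousLinearMap.det,
    ← LinearMap.det_conj _ (TT ι)]
  congr 1
  refine LinearMap.ext fun z => ?_
  obtain ⟨v, rfl⟩ := (TT ι).surjective z
  funext ⟨i, k⟩
  have h3 := congrFun (h2 i v) k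
  simp only [LinearMap.comp_apply, LinearEquiv.coe_coe, LinearEquiv.symm_apply_apply,
    toLin'_apply]
  refine h3.trans ?_
  rw [Finset.sum_apply]
  simp only [mulVec, dotProduct, Fintype.sum_prod_type]
  rfl

omit [Fintype ι] [DecidableEq ι] in
theorem uniq_evL (q : G → ℍ[ℝ]) (hq : ∀ g, q g ≠ 0) (ρ : G →* Matrix (Fin 4) (Fin 4) ℝ)
    (hρ : ∀ g y, ρ g *ᵥ T4 y = T4 (q g * y * (q g)⁻¹)) (L : ι → List ((G × ι) × Bool))
    (h1 : NS fun i => FreeGroup.mk (L i)) (y : ι → ℍ[ℝ]) (hy : ∀ j, y j ≠ 0) :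
    (fun i => evL (fun x : G × ι => q x.1 * y x.2 * (q x.1)⁻¹) (L i)) = 1 ↔ y = 1 := by
  refine ⟨fun h => ?_, ?_⟩
  · let u : G → ℍ[ℝ]ˣ := fun g => Units.mk0 _ (hq g)
    let γ : G × ι → ℍ[ℝ]ˣ := fun x => u x.1 * Units.mk0 _ (hy x.2) * (u x.1)⁻¹
    have h2 : ∀ x, (γ x : ℍ[ℝ]) = q x.1 * y x.2 * (q x.1)⁻¹ := fun x => by simp [γ, u]
    have h3 : ∀ i, FreeGroup.lift γ (FreeGroup.mk (L i)) = 1 := fun i => by
      apply Units.ext
      rw [← evL_units]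
      simp only [h2]
      exact congrFun h i
    have h4 := h1 ℍ[ℝ]ˣ γ fun g i => by
      have h5 : FreeGroup.lift (fun x : G × ι => γ (g * x.1, x.2)) =
          (MulAut.conj (u g)).toMonoidHom.comp (FreeGroup.lift γ) := by
        ext1 x
        apply Units.ext
        apply T4.injective
        have h6 : ((MulAut.conj (u g) (γ x) : ℍ[ℝ]ˣ) : ℍ[ℝ]) = q g * γ x * (q g)⁻¹ := by
          simp [u]
        simp only [FreeGroup.lift_apply_of, MonoidHom.comp_apply, MulEquiv.coe_toMonoidHom, h6, h2,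
          ← hρ, map_mul, mulVec_mulVec]
      rw [h5, MonoidHom.comp_apply, h3, map_one]
    funext j
    have h5 := h2 (1, j)
    rw [h4, Units.val_one, eq_mul_inv_iff_mul_eq₀ (hq 1), one_mul] at h5
    exact (mul_left_cancel₀ (hq 1) (h5.symm.trans (mul_one _).symm))
  · rintro rfl
    funext i
    have e1 : (fun x : G × ι => q x.1 * (1 : ι → ℍ[ℝ]) x.2 * (q x.1)⁻¹) = fun _ => 1 := by
      funext x
      simp [hq x.1]
    rw [e1, evL_one]
    rfl

theorem lift_triv (x : MonoidAlgebra ℤ G) :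
    MonoidAlgebra.lift ℤ (Matrix (Fin 4) (Fin 4) ℝ) G 1 x =
      MonoidAlgebra.lift ℤ ℝ G 1 x • (1 : Matrix (Fin 4) (Fin 4) ℝ) := by
  induction x using MonoidAlgebra.induction_linear with
  | zero => simp
  | add x y hx hy => rw [map_add, map_add, hx, hy, add_smul]
  | single g a =>
    rw [MonoidAlgebra.lift_single, MonoidAlgebra.lift_single, smul_assoc]
    simp

end RT

open RT

theorem roth {G ι : Type} [Group G] [Fintype ι] [DecidableEq ι] (q : G → ℍ[ℝ])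
    (hq : ∀ (g : G) (s : ℝ), 0 ≤ s → s ≤ 1 → (1 - s) • (1 : ℍ[ℝ]) + s • q g ≠ 0)
    (ρ : G →* Matrix (Fin 4) (Fin 4) ℝ)
    (hρ : ∀ (g : G) (y : ℍ[ℝ]), ρ g *ᵥ ![y.re, y.imI, y.imJ, y.imK] =
      ![(q g * y * (q g)⁻¹).re, (q g * y * (q g)⁻¹).imI, (q g * y * (q g)⁻¹).imJ,
        (q g * y * (q g)⁻¹).imK])
    (r : ι → FreeGroup (G × ι)) (h1 : NS r) (h2 : IsUnit (jac r)) :
    0 < (comp ι ι (Fin 4) (Fin 4) ℝ
      ((jac r).map (MonoidAlgebra.lift ℤ (Matrix (Fin 4) (Fin 4) ℝ) G ρ).toRingHom)).det := by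
  classical
  obtain ⟨L, rfl⟩ : ∃ L : ι → List ((G × ι) × Bool), r = fun i => FreeGroup.mk (L i) :=
    ⟨fun i => (r i).toWord, funext fun i => FreeGroup.mk_toWord.symm⟩
  let Q : ℝ → G → ℍ[ℝ] := fun t g =>
    (1 - Real.smoothTransition t) • (1 : ℍ[ℝ]) + Real.smoothTransition t • q g
  have hQ : ∀ t g, Q t g ≠ 0 := fun t g =>
    hq g _ (Real.smoothTransition.nonneg t) (Real.smoothTransition.le_one t)
  have hQ0 : ∀ t ≤ 0, Q t = fun _ => 1 := fun t ht => funext fun g => by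
    simp [Q, Real.smoothTransition.zero_of_nonpos ht]
  have hQ1 : ∀ t ≥ 1, Q t = q := fun t ht => funext fun g => by
    simp [Q, Real.smoothTransition.one_of_one_le ht]
  have hq1 : ∀ g, q g ≠ 0 := hQ1 1 le_rfl ▸ hQ 1
  have hρ1 : ∀ g y, ρ g *ᵥ T4 y = T4 (q g * y * (q g)⁻¹) := hρ
  have hρ0 : ∀ (g : G) y, (1 : G →* Matrix (Fin 4) (Fin 4) ℝ) g *ᵥ T4 y =
      T4 ((1 : ℍ[ℝ]) * y * (1 : ℍ[ℝ])⁻¹) := fun g y => by simp
  let W : ℝ × (ι → ℍ[ℝ]) → ι → ℍ[ℝ] := fun z i =>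
    evL (fun x : G × ι => Q z.1 x.1 * z.2 x.2 * (Q z.1 x.1)⁻¹) (L i)
  let a : Matrix ι ι ℝ := (jac fun i => FreeGroup.mk (L i)).map (MonoidAlgebra.lift ℤ ℝ G 1).toRingHom
  have ha : IsUnit a := h2.map (MonoidAlgebra.lift ℤ ℝ G 1).toRingHom.mapMatrix
  have ha' : IsUnit a.det := (isUnit_iff_isUnit_det _).1 ha
  let M : ι → ℝ := fun j => ∑ i, |a⁻¹ j i|
  let K : Set (ι → ℍ[ℝ]) := univ.pi fun j =>
    closedBall 0 (Real.exp (M j)) \ ball 0 (Real.exp (-M j))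
  have hU : IsOpen {y : ι → ℍ[ℝ] | ∀ j, y j ≠ 0} := by
    rw [Set.ofPred_forall]
    exact isOpen_iInter_of_finite fun j => isOpen_ne_fun (continuous_apply j) continuous_const
  have key := deg_sign (K := K) hU
    (isCompact_univ_pi fun j => (isCompact_closedBall _ _).diff isOpen_ball)
    (fun y hy j h => (hy j trivial).2 (by rw [h]; exact mem_ball_self (Real.exp_pos _))) W
    (fun z hz => contDiffAt_pi.2 fun i => by
      have h3 : ∀ g, ContDiffAt ℝ ∞ (fun y : ℝ × (ι → ℍ[ℝ]) => Q y.1 g) z := fun g => by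
        have h4 : ContDiffAt ℝ ∞ (fun y : ℝ × (ι → ℍ[ℝ]) => Real.smoothTransition y.1) z :=
          Real.smoothTransition.contDiffAt.comp z contDiffAt_fst
        exact ((contDiffAt_const.sub h4).smul contDiffAt_const).add (h4.smul contDiffAt_const)
      refine cd_evL (fun (y : ℝ × (ι → ℍ[ℝ])) (x : G × ι) => Q y.1 x.1 * y.2 x.2 * (Q y.1 x.1)⁻¹)
        (fun x => ((h3 _).mul (contDiffAt_pi.1 contDiffAt_snd x.2)).mul
          ((cd_inv (hQ _ _)).comp z (h3 _)))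
        (fun x => mul_ne_zero (mul_ne_zero (hQ _ _) (hz _)) (inv_ne_zero (hQ _ _))) _)
    (p := 1) (fun _ => one_ne_zero) (ε := 1 / 2) (by norm_num)
    (fun t y hy h j _ => by
      have h3 : ∀ i, |(a *ᵥ fun j => Real.log ‖y j‖) i| ≤ 1 := fun i => by
        have h4 : (a *ᵥ fun j => Real.log ‖y j‖) i = Real.log ‖W (t, y) i‖ :=
          (log_evL (Q t) (hQ t) y hy (L i)).2.symm
        have h5 : ‖W (t, y) i - 1‖ < 1 / 2 :=
          (norm_le_pi_norm (W (t, y) - 1) i).trans_lt (mem_ball_iff_norm.1 h)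
        have h6 := abs_norm_sub_norm_le (W (t, y) i) 1
        rw [norm_one, abs_le] at h6
        have h7 : 0 < ‖W (t, y) i‖ := by linarith
        have h8 := Real.log_le_sub_one_of_pos h7
        have h9 := Real.one_sub_inv_le_log_of_pos h7
        have h10 : ‖W (t, y) i‖⁻¹ ≤ 2 := by
          rw [inv_le_comm₀ h7 two_pos]
          linarith
        rw [h4, abs_le]
        constructor <;> linarith
      have h4 : Real.log ‖y j‖ = ∑ i, a⁻¹ j i * (a *ᵥ fun j => Real.log ‖y j‖) i := by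
        change _ = (a⁻¹ *ᵥ (a *ᵥ fun j => Real.log ‖y j‖)) j
        rw [mulVec_mulVec, nonsing_inv_mul _ ha', one_mulVec]
      have h5 : |Real.log ‖y j‖| ≤ M j := by
        rw [h4]
        refine (Finset.abs_sum_le_sum_abs _ _).trans (Finset.sum_le_sum fun i _ => ?_)
        rw [abs_mul]
        exact mul_le_of_le_one_right (abs_nonneg _) (h3 i)
      have h6 : 0 < ‖y j‖ := norm_pos_iff.2 (hy j)
      rw [abs_le] at h5
      refine ⟨mem_closedBall_zero_iff.2 ((Real.log_le_iff_le_exp h6).1 h5.2), fun h7 => ?_⟩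
      exact absurd (mem_ball_zero_iff.1 h7) (not_lt.2 ((Real.le_log_iff_exp_le h6).1 h5.1)))
    (fun t ht y => by simp only [W, hQ0 t ht, hQ0 0 le_rfl])
    (fun t ht y => by simp only [W, hQ1 t ht, hQ1 1 le_rfl])
    (fun y hy => by
      simp only [W, hQ0 0 le_rfl]
      exact uniq_evL (fun _ => 1) (fun _ => one_ne_zero) 1 hρ0 L h1 y hy)
    (fun y hy => by
      simp only [W, hQ1 1 le_rfl]
      exact uniq_evL q hq1 ρ hρ1 L h1 y hy)
    (by
      simp only [W, hQ0 0 le_rfl]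
      rw [det_evL (fun _ => 1) (fun _ => one_ne_zero) 1 hρ0 L]
      have h3 : comp ι ι (Fin 4) (Fin 4) ℝ ((jac fun i => FreeGroup.mk (L i)).map
          (MonoidAlgebra.lift ℤ (Matrix (Fin 4) (Fin 4) ℝ) G 1).toRingHom) =
          kroneckerMap (· * ·) a (1 : Matrix (Fin 4) (Fin 4) ℝ) := by
        ext ⟨i, k⟩ ⟨j, l⟩
        exact congrFun (congrFun (lift_triv _) k) l
      rw [h3, det_kronecker, det_one, one_pow, mul_one, Fintype.card_fin]
      exact Even.pow_pos (by decide) ha'.ne_zero)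
  simp only [W, hQ1 1 le_rfl] at key
  rw [det_evL q hq1 ρ hρ1 L] at key
  exact key.lt_of_ne' ((isUnit_iff_isUnit_det _).1 (isUnit_cm _ h2)).ne_zero

end Pool.Agent.Lib.MP_2add11_gt.D5
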