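import Pool.Agent.Lib.MP_2add11_gt.D5.Roth
import Pool.Agent.Lib.MP_2add11_gt.C5.B
import Pool.Agent.Lib.MP_2add11_gt.IG.Push
import Pool.Agent.Lib.MP_2add11_gt.FG.Conv

/-!
The sign and the logarithm of the determinant in the rotation representation of the dihedral group
of order ten, as homomorphisms on the Whitehead group.
-/

noncomputable section

namespace Pool.Agent.Lib.MP_2add11_gt.D5

open Matrix FG Complex ComplexConjugate
open scoped Quaternion

section det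

variable {W : Type} [AddCommGroup W] (φ : ℝ → W)

open Classical in
def dfSg {n : Type} (A : Matrix n n ℝ) : W :=
  if _h : Finite n then φ (A.submatrix (Finite.equivFin n).symm (Finite.equivFin n).symm).det else 0

theorem dfSg_eq {n : Type} [Fintype n] [DecidableEq n] (A : Matrix n n ℝ) : dfSg φ A = φ A.det := by
  rw [dfSg, dif_pos (inferInstance : Finite n), det_submatrix_equiv_self]

def detInvSg (hφ : ∀ a b, a ≠ 0 → b ≠ 0 → φ (a * b) = φ a + φ b) : Inv ℝ W where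
  c := dfSg φ
  mul {n} _ _ A B hA hB := by
    rw [dfSg_eq, dfSg_eq, dfSg_eq, det_mul, hφ _ _ ((isUnit_iff_isUnit_det _).1 hA).ne_zero
      ((isUnit_iff_isUnit_det _).1 hB).ne_zero]
  sub {m n} _ _ e A hA := by
    classical
    have := Fintype.ofEquiv n e.symm
    rw [dfSg_eq, dfSg_eq, det_submatrix_equiv_self]
  stab {n} _ _ A hA := by
    rw [dfSg_eq, dfSg_eq, det_fromBlocks_zero₂₁, det_one, mul_one]

end det

def mSg (p : ℍ[ℝ]) : Matrix (Fin 4) (Fin 4) ℝ :=
  !![p.re ^ 2 + p.imI ^ 2 + p.imJ ^ 2 + p.imK ^ 2, 0, 0, 0;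
    0, p.re ^ 2 + p.imI ^ 2 - p.imJ ^ 2 - p.imK ^ 2, 2 * (p.imI * p.imJ - p.re * p.imK),
      2 * (p.imI * p.imK + p.re * p.imJ);
    0, 2 * (p.imI * p.imJ + p.re * p.imK), p.re ^ 2 - p.imI ^ 2 + p.imJ ^ 2 - p.imK ^ 2,
      2 * (p.imJ * p.imK - p.re * p.imI);
    0, 2 * (p.imI * p.imK - p.re * p.imJ), 2 * (p.imJ * p.imK + p.re * p.imI),
      p.re ^ 2 - p.imI ^ 2 - p.imJ ^ 2 + p.imK ^ 2]

theorem mSg_mul (p q : ℍ[ℝ]) : mSg (p * q) = mSg p * mSg q := by
  ext i j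
  fin_cases i <;> fin_cases j <;> simp [mSg, Matrix.mul_apply, Fin.sum_univ_four] <;> ring

theorem mSg_neg (p : ℍ[ℝ]) : mSg (-p) = mSg p := by
  ext i j
  fin_cases i <;> fin_cases j <;> simp [mSg]

theorem mSg_one : mSg 1 = 1 := by
  ext i j
  fin_cases i <;> fin_cases j <;> simp [mSg]

theorem mSg_det (p : ℍ[ℝ]) :
    (mSg p).det = (p.re ^ 2 + p.imI ^ 2 + p.imJ ^ 2 + p.imK ^ 2) ^ 4 := by
  simp [mSg, det_succ_row_zero, Fin.sum_univ_succ, Fin.succAbove]
  ring

theorem mSg_vec (p y : ℍ[ℝ]) : mSg p *ᵥ ![y.re, y.imI, y.imJ, y.imK] =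
    ![(p * y * star p).re, (p * y * star p).imI, (p * y * star p).imJ, (p * y * star p).imK] := by
  ext i
  fin_cases i <;> simp [mSg, mulVec, dotProduct, Fin.sum_univ_four] <;> ring

def chSg (i : ZMod 5) : ℂ := chr (Multiplicative.ofAdd i)

theorem chSg_add (i j : ZMod 5) : chSg (i + j) = chSg i * chSg j := by
  rw [chSg, ofAdd_add, map_mul]; rfl

theorem chSg_zero : chSg 0 = 1 := map_one chr

theorem chSg_norm (i : ZMod 5) : (chSg i).re ^ 2 + (chSg i).im ^ 2 = 1 := by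
  have : normSq (chSg i) = 1 := by rw [normSq_eq_norm_sq, chSg, norm_chr]; simp
  rw [normSq_apply] at this
  linarith

theorem chSg_sub (i j : ZMod 5) : chSg (j - i) = conj (chSg i) * chSg j := by
  have h : chSg i * conj (chSg i) = 1 := by
    rw [mul_conj, normSq_eq_norm_sq, chSg, norm_chr]; simp
  have h2 : chSg j = chSg (j - i) * chSg i := by rw [← chSg_add, sub_add_cancel]
  rw [h2]
  linear_combination (-chSg (j - i)) * h

theorem chSg_five (i : ZMod 5) : chSg i ^ 5 = 1 := by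
  rw [chSg, ← map_pow, ← ofAdd_nsmul, show 5 • i = 0 by revert i; decide]
  exact map_one chr

def qSg : DihedralGroup 5 → ℍ[ℝ]
  | .r i => ⟨(chSg i).re, (chSg i).im, 0, 0⟩
  | .sr i => ⟨0, 0, (chSg i).re, -(chSg i).im⟩

theorem qrSg (i : ZMod 5) : (qSg (.r i)).re = (chSg i).re ∧ (qSg (.r i)).imI = (chSg i).im ∧
    (qSg (.r i)).imJ = 0 ∧ (qSg (.r i)).imK = 0 := ⟨rfl, rfl, rfl, rfl⟩

theorem qsSg (i : ZMod 5) : (qSg (.sr i)).re = 0 ∧ (qSg (.sr i)).imI = 0 ∧
    (qSg (.sr i)).imJ = (chSg i).re ∧ (qSg (.sr i)).imK = -(chSg i).im := ⟨rfl, rfl, rfl, rfl⟩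

theorem qSg_norm (g : DihedralGroup 5) :
    (qSg g).re ^ 2 + (qSg g).imI ^ 2 + (qSg g).imJ ^ 2 + (qSg g).imK ^ 2 = 1 := by
  rcases g with i | i <;> simpa [qrSg, qsSg] using chSg_norm i

theorem qSg_mul (g h : DihedralGroup 5) :
    qSg (g * h) = qSg g * qSg h ∨ qSg (g * h) = -(qSg g * qSg h) := by
  rcases g with i | i <;> rcases h with j | j
  · left; ext <;> simp [qrSg, qsSg, chSg_add]
  · left; ext <;> simp [qrSg, qsSg, chSg_sub] <;> ring
  · left; ext <;> simp [qrSg, qsSg, chSg_add] <;> ring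
  · right; ext <;> simp [qrSg, qsSg, chSg_sub] <;> ring

theorem qSg_inv (g : DihedralGroup 5) : (qSg g)⁻¹ = star (qSg g) := by
  refine inv_eq_of_mul_eq_one_right ?_
  rw [Quaternion.self_mul_star, Quaternion.normSq_def', qSg_norm]
  simp

theorem qSg_ne (g : DihedralGroup 5) (s : ℝ) (_h0 : 0 ≤ s) (_h1 : s ≤ 1) :
    (1 - s) • (1 : ℍ[ℝ]) + s • qSg g ≠ 0 := by
  intro h
  have a := congrArg (fun p : ℍ[ℝ] => p.re) h
  have b := congrArg (fun p : ℍ[ℝ] => p.imI) h
  have c := congrArg (fun p : ℍ[ℝ] => p.imJ) h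
  have d := congrArg (fun p : ℍ[ℝ] => p.imK) h
  rcases g with i | i
  · have n := chSg_norm i
    simp [qrSg] at a b
    have hs : s ≠ 0 := fun e => by simp [e] at a
    have b' : (chSg i).im = 0 := b.resolve_left hs
    have hr : (chSg i).re = -1 := by
      rw [b'] at n
      have : ((chSg i).re - 1) * ((chSg i).re + 1) = 0 := by linarith
      rcases mul_eq_zero.1 this with e | e
      · have : (chSg i).re = 1 := by linarith
        rw [this] at a
        linarith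
      · linarith
    have e : chSg i = -1 := Complex.ext (by simpa using hr) (by simpa using b')
    have := chSg_five i
    rw [e] at this
    norm_num at this
  · have n := chSg_norm i
    simp [qsSg] at a c d
    have hs : s ≠ 0 := fun e => by simp [e] at a
    rw [c.resolve_left hs, d.resolve_left hs] at n
    norm_num at n

def rhoSg : DihedralGroup 5 →* Matrix (Fin 4) (Fin 4) ℝ where
  toFun g := mSg (qSg g)
  map_one' := by
    rw [← mSg_one]
    congr 1
    have := qrSg 0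
    rw [chSg_zero] at this
    ext
    exacts [this.1, this.2.1, this.2.2.1, this.2.2.2]
  map_mul' g h := by
    rcases qSg_mul g h with e | e
    · rw [e, mSg_mul]
    · rw [e, mSg_neg, mSg_mul]

def liftSg : MonoidAlgebra ℤ (DihedralGroup 5) →+* Matrix (Fin 4) (Fin 4) ℝ :=
  (MonoidAlgebra.lift ℤ (Matrix (Fin 4) (Fin 4) ℝ) (DihedralGroup 5) rhoSg).toRingHom

theorem liftSg_single (g : DihedralGroup 5) : liftSg (.single g 1) = mSg (qSg g) := by
  simp [liftSg, rhoSg]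

theorem det_u1Sg (x : MonoidAlgebra ℤ (DihedralGroup 5)) :
    (comp Unit Unit (Fin 4) (Fin 4) ℝ ((u1 x).map liftSg)).det = (liftSg x).det := by
  rw [← det_submatrix_equiv_self (Equiv.uniqueProd (Fin 4) Unit) (liftSg x)]
  rfl

theorem exists_Sg {W : Type} [AddCommGroup W] (φ : ℝ → W)
    (hφ : ∀ a b, a ≠ 0 → b ≠ 0 → φ (a * b) = φ a + φ b) (h1 : φ 1 = 0) :
    ∃ f : Wh (DihedralGroup 5) →+ W, ∀ (n : Type) [Fintype n] [DecidableEq n]
      (A : Matrix n n (MonoidAlgebra ℤ (DihedralGroup 5))), IsUnit A →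
        f ((whInv _).c A) = φ (comp n n (Fin 4) (Fin 4) ℝ (A.map liftSg)).det := by
  obtain ⟨f, hf⟩ := IG.exists_whLift ((detInvSg φ hφ).comap liftSg) fun g x hx => by
    change dfSg φ (comp Unit Unit (Fin 4) (Fin 4) ℝ ((u1 x).map liftSg)) = 0
    rw [dfSg_eq, det_u1Sg]
    rcases hx with rfl | rfl
    · rw [liftSg_single, mSg_det, qSg_norm, one_pow, h1]
    · rw [map_neg, det_neg, liftSg_single, mSg_det, qSg_norm]
      norm_num [h1]
  exact ⟨f, fun n _ _ A hA => (hf n A hA).trans (dfSg_eq _ _)⟩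

theorem det_g0Sg : (liftSg (1 - MonoidAlgebra.single (DihedralGroup.r 1) 1 +
    MonoidAlgebra.single (DihedralGroup.sr 0) 1)).det = -(2 + C5.sg) := by
  have n := chSg_norm 1
  have s := C5.sg_sq
  have e : C5.sg = 2 * (chSg 1).re := rfl
  rw [e] at s ⊢
  rw [map_add, map_sub, map_one, liftSg_single, liftSg_single]
  have : (1 : Matrix (Fin 4) (Fin 4) ℝ) - mSg (qSg (.r 1)) + mSg (qSg (.sr 0)) =
      !![1, 0, 0, 0; 0, -1, 0, 0;
        0, 0, 2 - ((chSg 1).re ^ 2 - (chSg 1).im ^ 2), 2 * ((chSg 1).re * (chSg 1).im);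
        0, 0, -(2 * ((chSg 1).re * (chSg 1).im)), -((chSg 1).re ^ 2 - (chSg 1).im ^ 2)] := by
    ext i j
    fin_cases i <;> fin_cases j <;> simp [mSg, qrSg, qsSg, chSg_zero] <;> linarith
  rw [this]
  simp [det_succ_row_zero, Fin.sum_univ_succ, Fin.succAbove]
  linear_combination (-((chSg 1).re ^ 2 + (chSg 1).im ^ 2) - 3) * n + s

theorem unit_g0Sg : IsUnit (1 - MonoidAlgebra.single (DihedralGroup.r 1) 1 +
    MonoidAlgebra.single (DihedralGroup.sr 0) 1 : MonoidAlgebra ℤ (DihedralGroup 5)) := by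
  let e : DihedralGroup 5 → MonoidAlgebra ℤ (DihedralGroup 5) := fun g => .single g 1
  have m : ∀ g h k : DihedralGroup 5, g * h = k → e g * e h = e k := by
    rintro g h _ rfl
    simp [e, MonoidAlgebra.single_mul_single]
  have e1 : e 1 = 1 := rfl
  change IsUnit (1 - e (.r 1) + e (.sr 0))
  have k1 : (1 - e (.r 1) + e (.sr 0)) * (1 - e (.r 4) - e (.sr 0)) = 1 - e (.r 1) - e (.r 4) := by
    simp only [mul_add, add_mul, mul_sub, sub_mul, one_mul, mul_one, e1,
      m (.r 1) (.r 4) 1 (by decide), m (.sr 0) (.sr 0) 1 (by decide),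
      m (.r 1) (.sr 0) (.sr 4) (by decide), m (.sr 0) (.r 4) (.sr 4) (by decide)]
    abel
  have k2 : (1 - e (.r 4) - e (.sr 0)) * (1 - e (.r 1) + e (.sr 0)) = 1 - e (.r 1) - e (.r 4) := by
    simp only [mul_add, add_mul, mul_sub, sub_mul, one_mul, mul_one, e1,
      m (.r 4) (.r 1) 1 (by decide), m (.sr 0) (.sr 0) 1 (by decide),
      m (.r 4) (.sr 0) (.sr 1) (by decide), m (.sr 0) (.r 1) (.sr 1) (by decide)]
    abel
  have k3 : (1 - e (.r 1) - e (.r 4)) * (1 - e (.r 2) - e (.r 3)) = 1 := by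
    simp only [mul_sub, sub_mul, one_mul, mul_one,
      m (.r 1) (.r 2) (.r 3) (by decide), m (.r 1) (.r 3) (.r 4) (by decide),
      m (.r 4) (.r 2) (.r 1) (by decide), m (.r 4) (.r 3) (.r 2) (by decide)]
    abel
  have k4 : (1 - e (.r 2) - e (.r 3)) * (1 - e (.r 1) - e (.r 4)) = 1 := by
    simp only [mul_sub, sub_mul, one_mul, mul_one,
      m (.r 2) (.r 1) (.r 3) (by decide), m (.r 3) (.r 1) (.r 4) (by decide),
      m (.r 2) (.r 4) (.r 1) (by decide), m (.r 3) (.r 4) (.r 2) (by decide)]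
    abel
  exact isUnit_iff_exists_and_exists.2 ⟨⟨_, (mul_assoc _ _ _).symm.trans (k1 ▸ k3)⟩,
    _, (mul_assoc _ _ _).trans (k2 ▸ k4)⟩

theorem unit_u1Sg {R : Type} [Ring R] {x : R} (hx : IsUnit x) : IsUnit (u1 x) := by
  obtain ⟨x, rfl⟩ := hx
  refine isUnit_of_inv (B := u1 (x⁻¹).val) ?_ ?_ <;> ext <;> simp [u1, Matrix.mul_apply]

theorem sign_block : ∃ (lg : Wh (DihedralGroup 5) →+ ℝ) (sg : Wh (DihedralGroup 5) →+ ZMod 2),
    lg ((whInv _).c (u1 (1 - MonoidAlgebra.single (DihedralGroup.r 1) 1 +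
      MonoidAlgebra.single (DihedralGroup.sr 0) 1 : MonoidAlgebra ℤ (DihedralGroup 5)))) ≠ 0 ∧
    sg ((whInv _).c (u1 (1 - MonoidAlgebra.single (DihedralGroup.r 1) 1 +
      MonoidAlgebra.single (DihedralGroup.sr 0) 1 : MonoidAlgebra ℤ (DihedralGroup 5)))) = 1 ∧
    ∀ x ∈ WhStar (DihedralGroup 5), sg x = 0 := by
  obtain ⟨lg, hl⟩ := exists_Sg Real.log (fun a b ha hb => Real.log_mul ha hb) Real.log_one
  obtain ⟨sg, hs⟩ := exists_Sg (fun a => if 0 < a then (0 : ZMod 2) else 1) (fun a b ha hb => by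
    rcases ha.lt_or_gt with ha | ha <;> rcases hb.lt_or_gt with hb | hb
    · rw [if_pos (mul_pos_of_neg_of_neg ha hb), if_neg ha.not_gt, if_neg hb.not_gt]; rfl
    · rw [if_neg (mul_neg_of_neg_of_pos ha hb).not_gt, if_neg ha.not_gt, if_pos hb]; rfl
    · rw [if_neg (mul_neg_of_pos_of_neg ha hb).not_gt, if_pos ha, if_neg hb.not_gt]; rfl
    · rw [if_pos (mul_pos ha hb), if_pos ha, if_pos hb]; rfl) (if_pos one_pos)
  have s := C5.sg_sq
  have hp : 0 < 2 + C5.sg := by nlinarith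
  refine ⟨lg, sg, ?_, ?_, fun x hx => ?_⟩
  · rw [hl Unit _ (unit_u1Sg unit_g0Sg), det_u1Sg, det_g0Sg, Real.log_neg_eq_log]
    refine Real.log_ne_zero_of_pos_of_ne_one hp fun e => ?_
    have : C5.sg = -1 := by linarith
    rw [this] at s
    norm_num at s
  · rw [hs Unit _ (unit_u1Sg unit_g0Sg), det_u1Sg, det_g0Sg, if_neg (by linarith)]
  · obtain ⟨ι, _, _, r, h1, h2, h3⟩ := neg_mem_alg hx
    have := roth qSg qSg_ne rhoSg (fun g y => by rw [qSg_inv]; exact mSg_vec _ y) r h1 h2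
    rw [← neg_eq_zero, ← map_neg, h3, hs _ _ h2]
    exact if_pos this

end Pool.Agent.Lib.MP_2add11_gt.D5
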