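import Pool.Agent.Lib.MP_2add11_gt.FG.Five

/-!
The unit `1 - t + s` of the integral group ring of the dihedral group of order ten; twice its
class is realised by a pair.
-/

noncomputable section

namespace Pool.Agent.Lib.MP_2add11_gt.D5

open Matrix FG DihedralGroup

/-- The rotation subgroup. -/
def rotTw : G5 →* DihedralGroup 5 := MonoidHom.mk' (fun x => r x.toAdd) fun _ _ => rfl

theorem mulTw (a b c : DihedralGroup 5) (h : a * b = c) :
    (MonoidAlgebra.single a 1 : MonoidAlgebra ℤ (DihedralGroup 5)) * MonoidAlgebra.single b 1 =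
      MonoidAlgebra.single c 1 := by
  rw [MonoidAlgebra.single_mul_single, h, mul_one]

theorem u1_mulTw {R : Type} [Ring R] (x y : R) : u1 (x * y) = u1 x * u1 y := by
  ext; simp [u1, mul_apply]

theorem isUnit_u1Tw {R : Type} [Ring R] {x : R} (h : IsUnit x) : IsUnit (u1 x) := by
  obtain ⟨v, rfl⟩ := h
  have h1 : u1 (1 : R) = 1 := by ext; simp [u1]
  exact isUnit_of_inv (B := u1 (↑v⁻¹ : R)) (by rw [← u1_mulTw, v.mul_inv, h1])
    (by rw [← u1_mulTw, v.inv_mul, h1])

theorem two_block :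
    IsUnit (1 - MonoidAlgebra.single (DihedralGroup.r 1) 1 +
      MonoidAlgebra.single (DihedralGroup.sr 0) 1 : MonoidAlgebra ℤ (DihedralGroup 5)) ∧
    (2 : ℕ) • (whInv (DihedralGroup 5)).c (u1 (1 - MonoidAlgebra.single (DihedralGroup.r 1) 1 +
      MonoidAlgebra.single (DihedralGroup.sr 0) 1 : MonoidAlgebra ℤ (DihedralGroup 5))) ∈
        WhStar (DihedralGroup 5) ∧
    -((2 : ℕ) • (whInv (DihedralGroup 5)).c (u1 (1 - MonoidAlgebra.single (DihedralGroup.r 1) 1 +
      MonoidAlgebra.single (DihedralGroup.sr 0) 1 : MonoidAlgebra ℤ (DihedralGroup 5)))) ∈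
        WhStar (DihedralGroup 5) := by
  set g0 : MonoidAlgebra ℤ (DihedralGroup 5) := 1 - MonoidAlgebra.single (DihedralGroup.r 1) 1 +
    MonoidAlgebra.single (DihedralGroup.sr 0) 1 with hg0
  let g1 : MonoidAlgebra ℤ (DihedralGroup 5) := 1 - .single (r 4) 1 - .single (sr 0) 1
  let u : MonoidAlgebra ℤ (DihedralGroup 5) :=
    MonoidAlgebra.mapDomainRingHom ℤ rotTw (E5 (-1) 1 0 0 1)
  have hu : u = -1 + .single (r 1) 1 + .single (r 4) 1 := by
    have h1 : rotTw gen = r 1 := rfl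
    have h4 : (r 1 : DihedralGroup 5) ^ 4 = r 4 := by decide
    have hT : MonoidAlgebra.mapDomainRingHom ℤ rotTw T = .single (r 1) 1 := by simp [T, h1]
    simp only [u, E5_eq, map_add, map_mul, map_pow, map_intCast, hT, MonoidAlgebra.single_pow, h4]
    simp
  have huu : IsUnit u := by
    refine IsUnit.map _ (IsUnit.of_mul_eq_one (E5 (-1) 0 1 1 0) ?_)
    rw [E5_mul, ← E5_one]
    norm_num
  have e1 : g0 * g1 = -.single 1 1 * u := by
    simp only [hg0, g1, hu, mul_add, add_mul, mul_sub, sub_mul, one_mul, mul_one, neg_mul, mul_neg,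
      mulTw (r 1) (r 4) 1 (by decide), mulTw (r 1) (sr 0) (sr 4) (by decide),
      mulTw (sr 0) (r 4) (sr 4) (by decide), mulTw (sr 0) (sr 0) 1 (by decide),
      ← MonoidAlgebra.one_def]
    abel
  have e2 : g1 * g0 = -.single 1 1 * u := by
    simp only [hg0, g1, hu, mul_add, mul_sub, sub_mul, one_mul, mul_one, neg_mul, mul_neg,
      mulTw (r 4) (r 1) 1 (by decide), mulTw (r 4) (sr 0) (sr 1) (by decide),
      mulTw (sr 0) (r 1) (sr 1) (by decide), mulTw (sr 0) (sr 0) 1 (by decide),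
      ← MonoidAlgebra.one_def]
    abel
  have e3 : g1 = -.single (r 2) 1 * g0 * .single (r 2) 1 := by
    simp only [hg0, g1, mul_add, add_mul, mul_sub, sub_mul, mul_one, neg_mul,
      mulTw (r 2) (r 2) (r 4) (by decide), mulTw (r 2) (r 1) (r 3) (by decide),
      mulTw (r 3) (r 2) 1 (by decide), mulTw (r 2) (sr 0) (sr 3) (by decide),
      mulTw (sr 3) (r 2) (sr 0) (by decide), ← MonoidAlgebra.one_def]
    abel
  have t1 := whInv_triv (x := -.single (1 : DihedralGroup 5) 1) 1 (.inr rfl)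
  have t2 := whInv_triv (x := -.single (r 2 : DihedralGroup 5) 1) (r 2) (.inr rfl)
  have t3 := whInv_triv (x := .single (r 2 : DihedralGroup 5) 1) (r 2) (.inl rfl)
  obtain ⟨w, hw⟩ := t1.1.mul huu
  have h0 : IsUnit g0 := isUnit_iff_exists_and_exists.2
    ⟨⟨g1 * ↑w⁻¹, by rw [← mul_assoc, e1, ← hw, w.mul_inv]⟩,
      ⟨↑w⁻¹ * g1, by rw [mul_assoc, e2, ← hw, w.inv_mul]⟩⟩
  have mm : ∀ {x y : MonoidAlgebra ℤ (DihedralGroup 5)}, IsUnit x → IsUnit y →
      (whInv _).c (u1 (x * y)) = (whInv _).c (u1 x) + (whInv _).c (u1 y) := fun hx hy => by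
    rw [u1_mulTw, (whInv _).mul (isUnit_u1Tw hx) (isUnit_u1Tw hy)]
  have c1 : (whInv _).c (u1 g1) = (whInv _).c (u1 g0) := by
    rw [e3, mm (t2.1.mul h0) t3.1, mm t2.1 h0]
    exact (congrArg₂ (fun a b => a + _ + b) t2.2 t3.2).trans (by rw [zero_add, add_zero])
  have c2 : (2 : ℕ) • (whInv _).c (u1 g0) = (whInv _).c (u1 u) := by
    have h1 := mm h0 (e3 ▸ (t2.1.mul h0).mul t3.1 : IsUnit g1)
    rw [e1, mm t1.1 huu, c1] at h1
    rw [two_nsmul, ← h1]
    exact (congrArg (fun a => a + _) t1.2).trans (zero_add _)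
  have c3 : (whInv _).c (u1 u) ∈ Alg (whInv (DihedralGroup 5)) :=
    Alg.push _ rotTw (u_mem _ (pull_triv _ rotTw fun g _ hx => (whInv_triv g hx).2))
  rw [c2]
  refine ⟨h0, ?_, mem_whStar c3⟩
  have := mem_whStar (Alg.neg _ c3)
  rwa [neg_neg] at this

end Pool.Agent.Lib.MP_2add11_gt.D5
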